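import Mathlib

/-!
# Positivity of all minors from the positivity of solid minors

A system of functions `u j : ℕ → ℝ` (`j = 0, 1, ...`, the columns of a matrix with the rows `ℕ`).
`cons u m n` is the minor of the rows `n, ..., n + m - 1` and the first `m` columns.
-/

set_option autoImplicit false

namespace Pool.Agent.BrentiRegion

open Finset Matrix

/-- The minor of `m` consecutive rows and the first `m` columns. -/
def cons (u : ℕ → ℕ → ℝ) (m n : ℕ) : ℝ := (Matrix.of fun i j : Fin m => u j (n + i)).det

/-- The derived system. -/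
noncomputable def der (u : ℕ → ℕ → ℝ) (j n : ℕ) : ℝ :=
  u (j + 1) (n + 1) / u 0 (n + 1) - u (j + 1) n / u 0 n

theorem cons_zero (u : ℕ → ℕ → ℝ) (n : ℕ) : cons u 0 n = 1 := by
  unfold cons
  exact Matrix.det_isEmpty

theorem cons_one (u : ℕ → ℕ → ℝ) (n : ℕ) : cons u 1 n = u 0 n := by
  unfold cons
  rw [Matrix.det_fin_one]
  simp

/-- Differences of consecutive rows, the first column consists of ones. -/
theorem det_ones {m : ℕ} (v : Fin (m + 1) → Fin m → ℝ) :
    (Matrix.of fun i j : Fin (m + 1) => (Fin.cons (α := fun _ => ℝ) 1 (v i) : Fin (m + 1) → ℝ) j).det =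
      (Matrix.of fun i j : Fin m => v i.succ j - v i.castSucc j).det := by
  rw [Matrix.det_eq_of_forall_row_eq_smul_add_pred (fun _ => (1 : ℝ))
    (B := Matrix.of fun i j : Fin (m + 1) =>
      (Fin.cases (motive := fun _ => ℝ) ((Fin.cons (α := fun _ => ℝ) 1 (v 0) : Fin (m + 1) → ℝ) j)
        (fun i' => (Fin.cons (α := fun _ => ℝ) 0 (fun k => v i'.succ k - v i'.castSucc k) :
          Fin (m + 1) → ℝ) j) i))]
  · rw [Matrix.det_succ_column_zero, Fin.sum_univ_succ]
    have h0 : ∑ i : Fin m, (-1 : ℝ) ^ ((i.succ : Fin (m + 1)) : ℕ) *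
        (Matrix.of fun i j : Fin (m + 1) =>
      (Fin.cases (motive := fun _ => ℝ) ((Fin.cons (α := fun _ => ℝ) 1 (v 0) : Fin (m + 1) → ℝ) j)
        (fun i' => (Fin.cons (α := fun _ => ℝ) 0 (fun k => v i'.succ k - v i'.castSucc k) :
          Fin (m + 1) → ℝ) j) i)) i.succ 0 * (Matrix.submatrix (Matrix.of fun i j : Fin (m + 1) =>
      (Fin.cases (motive := fun _ => ℝ) ((Fin.cons (α := fun _ => ℝ) 1 (v 0) : Fin (m + 1) → ℝ) j)
        (fun i' => (Fin.cons (α := fun _ => ℝ) 0 (fun k => v i'.succ k - v i'.castSucc k) :
          Fin (m + 1) → ℝ) j) i)) i.succ.succAbove Fin.succ).det = 0 := by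
      refine Finset.sum_eq_zero fun i _ => ?_
      simp
    rw [h0, add_zero]
    simp only [Fin.val_zero, pow_zero, one_mul, Matrix.of_apply, Fin.cases_zero, Fin.cons_zero]
    congr 1
  · intro j
    simp
  · intro i j
    refine Fin.cases ?_ (fun j' => ?_) j
    · simp
    · simp

/-- Multilinear expansion. -/
theorem det_sum {m : ℕ} (r : Fin (m + 1) → ℕ) (hr : StrictMono r) (c : Fin m → ℕ)
    (v : ℕ → ℕ → ℝ) :
    (Matrix.of fun i j : Fin m => v (c j) (r i.succ) - v (c j) (r i.castSucc)).det =
      ∑ s ∈ Fintype.piFinset fun i : Fin m => Finset.Ico (r i.castSucc) (r i.succ),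
        (Matrix.of fun i j : Fin m => v (c j) (s i + 1) - v (c j) (s i)).det := by
  have h1 : (Matrix.of fun i j : Fin m => v (c j) (r i.succ) - v (c j) (r i.castSucc)) =
      fun i => ∑ s ∈ Finset.Ico (r i.castSucc) (r i.succ),
        fun j => v (c j) (s + 1) - v (c j) s := by
    funext i j
    rw [Finset.sum_apply, Finset.sum_Ico_sub (fun s => v (c j) s)
      (hr (Fin.castSucc_lt_succ)).le]
    rfl
  rw [h1]
  exact MultilinearMap.map_sum_finset (Matrix.detRowAlternating (R := ℝ) (n := Fin m)).toMultilinearMap
    (fun i (s : ℕ) => fun j => v (c j) (s + 1) - v (c j) s)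
    (fun i : Fin m => Finset.Ico (r i.castSucc) (r i.succ))

theorem strictMono_of_mem {m : ℕ} {r : Fin (m + 1) → ℕ} (hr : StrictMono r) {s : Fin m → ℕ}
    (hs : s ∈ Fintype.piFinset fun i : Fin m => Finset.Ico (r i.castSucc) (r i.succ)) :
    StrictMono s := by
  rw [Fintype.mem_piFinset] at hs
  intro i j hij
  have h1 := Finset.mem_Ico.1 (hs i)
  have h2 := Finset.mem_Ico.1 (hs j)
  have h3 : r i.succ ≤ r j.castSucc := hr.monotone (by
    rw [Fin.le_iff_val_le_val]
    simpa using hij)
  omega

/-- First step of the elimination. -/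
theorem det_step {m : ℕ} (r : Fin (m + 1) → ℕ) (c : Fin m → ℕ) (u : ℕ → ℕ → ℝ)
    (h0 : ∀ i, u 0 (r i) ≠ 0) :
    (Matrix.of fun i j : Fin (m + 1) =>
      u ((Fin.cons (α := fun _ => ℕ) 0 (fun k => c k + 1) : Fin (m + 1) → ℕ) j) (r i)).det =
      (∏ i, u 0 (r i)) * (Matrix.of fun i j : Fin m =>
        u (c j + 1) (r i.succ) / u 0 (r i.succ) -
          u (c j + 1) (r i.castSucc) / u 0 (r i.castSucc)).det := by
  rw [← det_ones (fun i j => u (c j + 1) (r i) / u 0 (r i)), ← Matrix.det_mul_column]
  congr 1
  ext i j
  refine Fin.cases ?_ (fun j' => ?_) j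
  · simp
  · simp only [Matrix.of_apply, Fin.cons_succ]
    rw [mul_div_cancel₀ _ (h0 i)]

theorem cons_succ (u : ℕ → ℕ → ℝ) (m n : ℕ) (h0 : ∀ i ≤ m, u 0 (n + i) ≠ 0) :
    cons u (m + 1) n = (∏ i : Fin (m + 1), u 0 (n + i)) * cons (der u) m n := by
  have h1 := det_step (fun i : Fin (m + 1) => n + i) (fun j : Fin m => (j : ℕ)) u
    (fun i => h0 i (by have := i.2; omega))
  have h2 : cons u (m + 1) n = (Matrix.of fun i j : Fin (m + 1) =>
      u ((Fin.cons (α := fun _ => ℕ) 0 (fun k => (k : ℕ) + 1) : Fin (m + 1) → ℕ) j) (n + i)).det := by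
    unfold cons
    congr 1
    ext i j
    refine Fin.cases ?_ (fun j' => ?_) j
    · simp
    · simp
  rw [h2, h1]
  congr 1

theorem der_pos {u : ℕ → ℕ → ℝ} {m n : ℕ} (h0 : ∀ i ≤ m, 0 < u 0 (n + i))
    (h : 0 < cons u (m + 1) n) : 0 < cons (der u) m n := by
  rw [cons_succ u m n (fun i hi => (h0 i hi).ne')] at h
  have h1 : 0 < ∏ i : Fin (m + 1), u 0 (n + i) :=
    Finset.prod_pos fun i _ => h0 i (by have := i.2; omega)
  exact (mul_pos_iff_of_pos_left h1).1 h

/-- Fekete: if the leading solid minors are positive on the interval `[a, b)`, then all minors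
of the first `m` columns are. -/
theorem fekete (m : ℕ) : ∀ (u : ℕ → ℕ → ℝ) (a b : ℕ),
    (∀ m' n, m' ≤ m → a ≤ n → n + m' ≤ b → 0 < cons u m' n) →
    ∀ r : Fin m → ℕ, StrictMono r → (∀ i, a ≤ r i ∧ r i < b) →
      0 < (Matrix.of fun i j : Fin m => u j (r i)).det := by
  induction m with
  | zero =>
    intro u a b _ r _ _
    rw [Matrix.det_isEmpty]
    exact one_pos
  | succ m ih =>
    intro u a b H r hr hab
    have hb : 1 ≤ b := by
      have := hab 0
      omega
    have hu : ∀ n, a ≤ n → n < b → 0 < u 0 n := fun n h1 h2 => by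
      have := H 1 n (by omega) h1 (by omega)
      rwa [cons_one] at this
    have h1 := det_step r (fun j : Fin m => (j : ℕ)) u (fun i => (hu _ (hab i).1 (hab i).2).ne')
    have h2 : (Matrix.of fun i j : Fin (m + 1) => u j (r i)) = (Matrix.of fun i j : Fin (m + 1) =>
      u ((Fin.cons (α := fun _ => ℕ) 0 (fun k => (k : ℕ) + 1) : Fin (m + 1) → ℕ) j) (r i)) := by
      ext i j
      refine Fin.cases ?_ (fun j' => ?_) j
      · simp
      · simp
    rw [h2, h1]
    refine mul_pos (Finset.prod_pos fun i _ => hu _ (hab i).1 (hab i).2) ?_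
    rw [det_sum r hr (fun j : Fin m => (j : ℕ)) (fun j n => u (j + 1) n / u 0 n)]
    refine Finset.sum_pos (fun s hs => ?_) ?_
    · have hsm := strictMono_of_mem hr hs
      rw [Fintype.mem_piFinset] at hs
      refine ih (der u) a (b - 1) (fun m' n hm' hn hnb => ?_) s hsm (fun i => ?_)
      · refine der_pos (fun i hi => hu _ (by omega) (by omega)) (H (m' + 1) n (by omega) hn (by omega))
      · have h3 := Finset.mem_Ico.1 (hs i)
        have h4 := hab i.castSucc
        have h5 := hab i.succ
        omega
    · rw [Fintype.piFinset_nonempty]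
      intro i
      rw [Finset.nonempty_Ico]
      exact hr Fin.castSucc_lt_succ

/-- The lower triangular case: positivity of the initial minors implies total positivity. -/
theorem tri (K : ℕ) : ∀ (u : ℕ → ℕ → ℝ), (∀ j n, n < j → u j n = 0) →
    (∀ m n, m ≤ K → 0 < cons u m n) →
    ∀ (m : ℕ) (r c : Fin m → ℕ), StrictMono r → StrictMono c → (∀ j, c j < K) →
      0 ≤ (Matrix.of fun i j : Fin m => u (c j) (r i)).det := by
  induction K with
  | zero =>
    intro u _ _ m r c _ _ hc
    match m, r, c, hc with
    | 0, r, c, hc =>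
      rw [Matrix.det_isEmpty]
      exact zero_le_one
    | m + 1, r, c, hc => exact absurd (hc 0) (by omega)
  | succ K ih =>
    intro u htri H m r c hr hc hcK
    have hu : ∀ n, 0 < u 0 n := fun n => by
      have := H 1 n (by omega)
      rwa [cons_one] at this
    have htri' : ∀ j n, n < j → der u j n = 0 := by
      intro j n hn
      unfold der
      rw [htri (j + 1) (n + 1) (by omega), htri (j + 1) n (by omega)]
      simp
    have H' : ∀ m n, m ≤ K → 0 < cons (der u) m n := fun m n hm =>
      der_pos (fun i _ => hu _) (H (m + 1) n (by omega))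
    match m, r, c, hr, hc, hcK with
    | 0, r, c, _, _, _ =>
      rw [Matrix.det_isEmpty]
      exact zero_le_one
    | m + 1, r, c, hr, hc, hcK =>
      by_cases h0 : c 0 = 0
      · have hpos : ∀ j : Fin m, 1 ≤ c j.succ := fun j => by
          have := hc (Fin.succ_pos j)
          omega
        have h2 : (Matrix.of fun i j : Fin (m + 1) => u (c j) (r i)) =
            (Matrix.of fun i j : Fin (m + 1) =>
            u ((Fin.cons (α := fun _ => ℕ) 0 (fun k => (c k.succ - 1) + 1) : Fin (m + 1) → ℕ) j)
              (r i)) := by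
          ext i j
          refine Fin.cases ?_ (fun j' => ?_) j
          · simp [h0]
          · simp only [Matrix.of_apply, Fin.cons_succ]
            rw [Nat.sub_add_cancel (hpos j')]
        rw [h2, det_step r (fun j : Fin m => c j.succ - 1) u (fun i => (hu _).ne')]
        refine mul_nonneg (Finset.prod_nonneg fun i _ => (hu _).le) ?_
        rw [det_sum r hr (fun j : Fin m => c j.succ - 1) (fun j n => u (j + 1) n / u 0 n)]
        refine Finset.sum_nonneg fun s hs => ?_
        refine ih (der u) htri' H' m s (fun j => c j.succ - 1) (strictMono_of_mem hr hs) ?_ ?_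
        · intro i j hij
          have h3 := hc (Fin.succ_lt_succ_iff.2 hij)
          have h4 := hpos i
          show c i.succ - 1 < c j.succ - 1
          omega
        · intro j
          have := hcK j.succ
          show c j.succ - 1 < K
          have := hpos j
          omega
      · have hpos : ∀ j : Fin (m + 1), 1 ≤ c j := fun j => by
          have := hc.monotone (Fin.zero_le j)
          omega
        by_cases hr0 : r 0 = 0
        · have : (Matrix.of fun i j : Fin (m + 1) => u (c j) (r i)).det = 0 := by
            refine Matrix.det_eq_zero_of_row_eq_zero 0 fun j => ?_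
            rw [Matrix.of_apply, hr0]
            exact htri _ _ (by have := hpos j; omega)
          rw [this]
        · set r' : Fin (m + 2) → ℕ := Fin.cons (α := fun _ => ℕ) 0 r with hr'
          have hr'm : StrictMono r' := by
            intro i j hij
            rcases Fin.eq_zero_or_eq_succ i with rfl | ⟨i, rfl⟩
            · rcases Fin.eq_zero_or_eq_succ j with rfl | ⟨j, rfl⟩
              · exact absurd hij (lt_irrefl _)
              · have := hr.monotone (Fin.zero_le j)
                simp only [hr', Fin.cons_zero, Fin.cons_succ]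
                omega
            · rcases Fin.eq_zero_or_eq_succ j with rfl | ⟨j, rfl⟩
              · exact absurd hij (Fin.not_lt_zero _)
              · simp only [hr', Fin.cons_succ]
                exact hr (Fin.succ_lt_succ_iff.1 hij)
          have h3 : (Matrix.of fun i j : Fin (m + 1) => u (c j) (r i)).det =
              (∏ i, u 0 (r i)) * (Matrix.of fun i j : Fin (m + 1) =>
                u (c j) (r i) / u 0 (r i)).det := by
            rw [← Matrix.det_mul_column]
            congr 1
            ext i j
            simp only [Matrix.of_apply]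
            rw [mul_div_cancel₀ _ (hu _).ne']
          have h4 : (Matrix.of fun i j : Fin (m + 1) => u (c j) (r i) / u 0 (r i)).det =
              (Matrix.of fun i j : Fin (m + 1) =>
                u (c j - 1 + 1) (r' i.succ) / u 0 (r' i.succ) -
                  u (c j - 1 + 1) (r' i.castSucc) / u 0 (r' i.castSucc)).det := by
            refine Matrix.det_eq_of_forall_row_eq_smul_add_pred (fun _ => (1 : ℝ)) ?_ ?_
            · intro j
              simp only [Matrix.of_apply]
              rw [Nat.sub_add_cancel (hpos j)]
              have h5 : r' (Fin.castSucc 0) = 0 := by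
                simp [hr']
              have h6 : r' (Fin.succ 0) = r 0 := by
                simp [hr']
              rw [h5, h6, htri (c j) 0 (by have := hpos j; omega)]
              simp
            · intro i j
              simp only [Matrix.of_apply]
              rw [Nat.sub_add_cancel (hpos j)]
              have h5 : r' (i.succ.castSucc) = r i.castSucc := by
                rw [← Fin.succ_castSucc]
                simp [hr']
              have h6 : r' (i.succ.succ) = r i.succ := by
                simp [hr']
              rw [h5, h6]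
              ring
          rw [h3, h4]
          refine mul_nonneg (Finset.prod_nonneg fun i _ => (hu _).le) ?_
          rw [det_sum r' hr'm (fun j : Fin (m + 1) => c j - 1) (fun j n => u (j + 1) n / u 0 n)]
          refine Finset.sum_nonneg fun s hs => ?_
          refine ih (der u) htri' H' (m + 1) s (fun j => c j - 1) (strictMono_of_mem hr'm hs) ?_ ?_
          · intro i j hij
            have h7 := hc hij
            have h8 := hpos i
            show c i - 1 < c j - 1
            omega
          · intro j
            have := hcK j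
            have := hpos j
            show c j - 1 < K
            omega

end Pool.Agent.BrentiRegion
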