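import Pool.Agent.BrentiRegion.Solid
import Pool.Agent.BrentiRegion.Fekete

/-!
# The region of strict positivity, and the reduction of a column strip to a finite set of minors
-/

set_option autoImplicit false

namespace Pool.Agent.BrentiRegion

open Finset

/-- The threshold. -/
def thr (X : ℕ) : ℕ := X * (4 * Nat.log 2 X + 8)

theorem thr_mono {X Y : ℕ} (h : X ≤ Y) : thr X ≤ thr Y := by
  unfold thr
  have h1 : Nat.log 2 X ≤ Nat.log 2 Y := Nat.log_mono_right h
  exact Nat.mul_le_mul h (by omega)

/-- Consecutive rows, arbitrary columns. -/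
theorem rows_pos (X m n : ℕ) (J : Fin m → ℕ) (hJ : StrictMono J) (hX : ∀ j, J j < X)
    (hn : thr X ≤ n) : 0 < (Matrix.of fun i j : Fin m => (F (n + i) (J j) : ℝ)).det := by
  rw [← Matrix.det_transpose]
  refine fekete m (fun i k => (F (n + i) k : ℝ)) 0 X (fun m' k _ _ hk => ?_) J hJ
    (fun i => ⟨Nat.zero_le _, hX i⟩)
  unfold cons
  rw [← Matrix.det_transpose]
  exact solid_pos k m' n ((thr_mono hk).trans hn)

/-- Arbitrary rows, arbitrary columns. -/
theorem region_pos (X m : ℕ) (I J : Fin m → ℕ) (hI : StrictMono I) (hJ : StrictMono J)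
    (hX : ∀ j, J j < X) (hn : ∀ i, thr X ≤ I i) :
    0 < (Matrix.of fun i j : Fin m => (F (I i) (J j) : ℝ)).det := by
  have h := fekete m (fun j n => if h : j < m then (F n (J ⟨j, h⟩) : ℝ) else 0) (thr X)
    (∑ i, I i + 1) (fun m' n hm' hn' _ => ?_) I hI (fun i => ⟨hn i, ?_⟩)
  · have h1 : (Matrix.of fun i j : Fin m => (F (I i) (J j) : ℝ)) =
        (Matrix.of fun i j : Fin m =>
          (fun j n => if h : j < m then (F n (J ⟨j, h⟩) : ℝ) else 0) (j : ℕ) (I i)) := by
      ext i j
      simp
    rw [h1]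
    exact h
  · have h2 := rows_pos X m' n (fun j => J (Fin.castLE hm' j))
      (fun a b hab => hJ (by simpa using hab)) (fun j => hX _) hn'
    unfold cons
    have h1 : (Matrix.of fun i j : Fin m' => (F (n + i) (J (Fin.castLE hm' j)) : ℝ)) =
        (Matrix.of fun i j : Fin m' =>
          (fun j n => if h : j < m then (F n (J ⟨j, h⟩) : ℝ) else 0) (j : ℕ) (n + i)) := by
      ext i j
      have hj : (j : ℕ) < m := lt_of_lt_of_le j.2 hm'
      simp only [Matrix.of_apply]
      rw [dif_pos hj]
      rfl
    rw [← h1]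
    exact h2
  · exact Nat.lt_succ_of_le (Finset.single_le_sum (fun i _ => Nat.zero_le (I i)) (mem_univ i))

/-- A column strip: it is enough to know the initial minors below the threshold. -/
theorem strip_nonneg (K : ℕ)
    (hK : ∀ m ≤ K, ∀ s, s + 1 < thr m →
      0 < (Matrix.of fun i q : Fin m => (F (s + i + 1) q : ℝ)).det)
    (m : ℕ) (r c : Fin m → ℕ) (hr : StrictMono r) (hc : StrictMono c) (hcK : ∀ j, c j < K) :
    0 ≤ (Matrix.of fun i j : Fin m => (F (r i + 1) (c j) : ℝ)).det := by
  refine tri K (fun j s => (F (s + 1) j : ℝ)) (fun j s hjs => ?_) (fun m' s hm' => ?_) m r c hr hc hcK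
  · cases j with
    | zero => omega
    | succ j => exact_mod_cast F_vanish s j (by omega)
  · unfold cons
    by_cases h : s + 1 < thr m'
    · exact hK m' hm' s h
    · have h1 := solid_pos 0 m' (s + 1) (by rw [zero_add]; exact not_lt.1 h)
      have h2 : (Matrix.of fun i q : Fin m' => (F (s + 1 + i) (0 + q) : ℝ)) =
          (Matrix.of fun i j : Fin m' => (F (s + i + 1) j : ℝ)) := by
        ext i j
        simp only [Matrix.of_apply, zero_add]
        rw [show s + 1 + (i : ℕ) = s + i + 1 by omega]
      rw [h2] at h1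
      exact h1

end Pool.Agent.BrentiRegion
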