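import Mathlib

/-!
# The explicit formula for the Eulerian numbers, and their symmetry
-/

set_option autoImplicit false

namespace Pool.Agent.BrentiRegion

open Finset

/-- The alternating sum for the Eulerian number `⟨n, k⟩`. -/
def F (n k : ℕ) : ℤ := ∑ j ∈ range (k + 1), (-1) ^ j * ((n + 1).choose j : ℤ) * ((k : ℤ) + 1 - j) ^ n

theorem F_zero (k : ℕ) : F 0 k = if k = 0 then 1 else 0 := by
  unfold F
  simp only [pow_zero, mul_one, zero_add]
  rcases k with _ | k
  · simp
  · rw [if_neg (Nat.succ_ne_zero k)]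
    induction k with
    | zero => simp [Finset.sum_range_succ]
    | succ k ih =>
      rw [Finset.sum_range_succ, ih, Nat.choose_eq_zero_of_lt (by omega)]
      simp

theorem F_col (n : ℕ) : F n 0 = 1 := by
  unfold F
  simp

theorem choose_id (N j : ℕ) : (N.choose (j + 1) : ℤ) * (j + 1) = N.choose j * ((N : ℤ) - j) := by
  by_cases h : j ≤ N
  · have h1 := Nat.choose_succ_right_eq N j
    have h2 : ((N.choose (j + 1) * (j + 1) : ℕ) : ℤ) = ((N.choose j * (N - j) : ℕ) : ℤ) := by
      rw [h1]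
    push_cast [Nat.cast_sub h] at h2
    exact h2
  · rw [Nat.choose_eq_zero_of_lt (by omega : N < j + 1), Nat.choose_eq_zero_of_lt (by omega : N < j)]
    simp

theorem F_succ (n k : ℕ) : F (n + 1) (k + 1) =
    ((k : ℤ) + 2) * F n (k + 1) + ((n : ℤ) - k) * F n k := by
  unfold F
  rw [Finset.sum_range_succ', Finset.sum_range_succ' _ (k + 1), mul_add, Finset.mul_sum,
    Finset.mul_sum]
  have h1 : ∀ j ∈ range (k + 1), (-1 : ℤ) ^ (j + 1) * ((n + 1 + 1).choose (j + 1) : ℤ) *
      (((k + 1 : ℕ) : ℤ) + 1 - ((j + 1 : ℕ) : ℤ)) ^ (n + 1) =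
      ((k : ℤ) + 2) * ((-1) ^ (j + 1) * ((n + 1).choose (j + 1) : ℤ) *
        (((k + 1 : ℕ) : ℤ) + 1 - ((j + 1 : ℕ) : ℤ)) ^ n) +
      ((n : ℤ) - k) * ((-1) ^ j * ((n + 1).choose j : ℤ) * ((k : ℤ) + 1 - j) ^ n) := by
    intro j _
    have h2 := choose_id (n + 1) j
    have h3 : ((n + 1 + 1).choose (j + 1) : ℤ) = (n + 1).choose j + (n + 1).choose (j + 1) := by
      rw [Nat.choose_succ_succ]
      push_cast
      ring
    push_cast at h2 ⊢
    rw [h3]
    have h4 : ((k : ℤ) + 1 + 1 - (j + 1)) = (k : ℤ) + 1 - j := by ring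
    rw [h4, pow_succ, pow_succ]
    linear_combination (-1 : ℤ) ^ j * ((k : ℤ) + 1 - j) ^ n * h2
  rw [Finset.sum_congr rfl h1, Finset.sum_add_distrib]
  push_cast
  simp only [pow_zero, Nat.choose_zero_right, Nat.cast_one, one_mul, Nat.cast_zero, sub_zero]
  ring

/-- Uniqueness. -/
theorem eq_F (E : ℕ → ℕ → ℤ) (h0 : ∀ k : ℕ, E 0 k = if k = 0 then 1 else 0)
    (h1 : ∀ n : ℕ, E (n + 1) 0 = E n 0)
    (h2 : ∀ n k : ℕ, E (n + 1) (k + 1) =
      ((k : ℤ) + 2) * E n (k + 1) + ((1 : ℤ) * (n : ℤ) - (k : ℤ)) * E n k) :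
    ∀ n k, E n k = F n k := by
  intro n
  induction n with
  | zero =>
    intro k
    rw [h0, F_zero]
  | succ n ih =>
    intro k
    rcases k with _ | k
    · rw [h1, ih, F_col, F_col]
    · rw [h2, ih, ih, F_succ]
      ring

theorem F_vanish (n k : ℕ) (h : n ≤ k) : F (n + 1) (k + 1) = 0 := by
  induction n generalizing k with
  | zero =>
    rw [F_succ, F_zero, F_zero]
    rcases k with _ | k
    · simp
    · simp
  | succ n ih =>
    rcases k with _ | k
    · omega
    · rw [F_succ (n + 1) (k + 1), ih (k + 1) (by omega)]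
      rcases Nat.lt_or_ge n k with h3 | h3
      · rcases k with _ | k
        · omega
        · rw [ih (k + 1) (by omega)]
          ring
      · obtain rfl : n = k := by omega
        push_cast
        ring

theorem F_symm (n : ℕ) : ∀ k ≤ n, F (n + 1) k = F (n + 1) (n - k) := by
  induction n with
  | zero =>
    intro k hk
    obtain rfl : k = 0 := by omega
    rfl
  | succ n ih =>
    intro k hk
    rcases k with _ | k
    · rw [Nat.sub_zero, F_col, F_succ, F_vanish n n le_rfl]
      have h1 := ih 0 (by omega)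
      rw [F_col, Nat.sub_zero] at h1
      rw [← h1]
      push_cast
      ring
    · rcases Nat.lt_or_ge k n with h3 | h3
      · have h4 : n + 1 - (k + 1) = (n - k - 1) + 1 := by omega
        rw [h4, F_succ (n + 1) k, F_succ (n + 1) (n - k - 1), ih (k + 1) (by omega), ih k (by omega)]
        have h5 : n - (k + 1) = n - k - 1 := by omega
        have h6 : n - k - 1 + 1 = n - k := by omega
        rw [h5, h6]
        have h7 : ((n - k - 1 : ℕ) : ℤ) = (n : ℤ) - k - 1 := by
          rw [Nat.sub_sub, Nat.cast_sub (by omega)]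
          push_cast
          ring
        rw [h7]
        push_cast
        ring
      · obtain rfl : k = n := by omega
        rw [Nat.sub_self, F_col, F_succ, F_vanish k k le_rfl, ih k le_rfl, Nat.sub_self, F_col]
        push_cast
        ring

/-- The entries of the shifted-reversed triangle. -/
theorem entry (E : ℕ → ℕ → ℤ) (h0 : ∀ k : ℕ, E 0 k = if k = 0 then 1 else 0)
    (h1 : ∀ n : ℕ, E (n + 1) 0 = E n 0)
    (h2 : ∀ n k : ℕ, E (n + 1) (k + 1) =
      ((k : ℤ) + 2) * E n (k + 1) + ((1 : ℤ) * (n : ℤ) - (k : ℤ)) * E n k) (n k : ℕ) :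
    (if k + 1 ≤ n + 1 then E (n + 1) (n + 1 - k - 1) else 0) = F (n + 1) k := by
  rw [eq_F E h0 h1 h2]
  split_ifs with h
  · have h3 : n + 1 - k - 1 = n - k := by omega
    rw [h3, ← F_symm n k (by omega)]
  · rcases k with _ | k
    · omega
    · rw [F_vanish n k (by omega)]

end Pool.Agent.BrentiRegion
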