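import Pool.Agent.BrentiRegion.Region
import Pool.Agent.BrentiRegion.Euler

/-!
# From the explicit formula to the triangle of the problem
-/

set_option autoImplicit false

namespace Pool.Agent.BrentiRegion

theorem cast_det {m : ℕ} (A : Fin m → Fin m → ℤ) :
    (Matrix.of fun i j : Fin m => ((A i j : ℤ) : ℝ)).det = (((Matrix.of A).det : ℤ) : ℝ) := by
  have h := (Int.castRingHom ℝ).map_det (Matrix.of A)
  rw [eq_intCast] at h
  rw [h]
  rfl

/-- The entries. -/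
theorem entry' (E : ℕ → ℕ → ℤ) (h0 : ∀ k : ℕ, E 0 k = if k = 0 then 1 else 0)
    (h1 : ∀ n : ℕ, E (n + 1) 0 = E n 0)
    (h2 : ∀ n k : ℕ, E (n + 1) (k + 1) =
      ((k : ℤ) + 2) * E n (k + 1) + ((1 : ℤ) * (n : ℤ) - (k : ℤ)) * E n k) (n k : ℕ) (hn : 1 ≤ n) :
    (if k + 1 ≤ n then E n (n - k - 1) else 0) = F n k := by
  obtain ⟨n, rfl⟩ : ∃ a, n = a + 1 := ⟨n - 1, by omega⟩
  exact entry E h0 h1 h2 n k

theorem strip_E (E : ℕ → ℕ → ℤ) (h0 : ∀ k : ℕ, E 0 k = if k = 0 then 1 else 0)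
    (h1 : ∀ n : ℕ, E (n + 1) 0 = E n 0)
    (h2 : ∀ n k : ℕ, E (n + 1) (k + 1) =
      ((k : ℤ) + 2) * E n (k + 1) + ((1 : ℤ) * (n : ℤ) - (k : ℤ)) * E n k) (K : ℕ)
    (hK : ∀ (m : ℕ) (r c : Fin m → ℕ), StrictMono r → StrictMono c →
      (∀ j, c j < K) → 0 ≤ (Matrix.of fun i j : Fin m => (F (r i + 1) (c j) : ℝ)).det)
    (m : ℕ) (I J : Fin m → ℕ) (hI : StrictMono I) (hJ : StrictMono J) (hJK : ∀ j, J j < K) :
    0 ≤ (Matrix.of (fun i j : Fin m =>
      if J j + 1 ≤ I i then E (I i) (I i - J j - 1) else 0)).det := by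
  by_cases hz : ∃ i, I i = 0
  · obtain ⟨i, hi⟩ := hz
    rw [Matrix.det_eq_zero_of_row_eq_zero i (fun j => by
      simp only [Matrix.of_apply]
      rw [if_neg (by omega)])]
  · have hz' : ∀ i, 1 ≤ I i := fun i => Nat.one_le_iff_ne_zero.2 fun h => hz ⟨i, h⟩
    have h3 := hK m (fun i => I i - 1) J (fun a b hab => by
      have h4 := hI hab
      have h5 := hz' a
      show I a - 1 < I b - 1
      omega) hJ hJK
    have h4 : (Matrix.of fun i j : Fin m => (F (I i - 1 + 1) (J j) : ℝ)) =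
        (Matrix.of fun i j : Fin m =>
          (((if J j + 1 ≤ I i then E (I i) (I i - J j - 1) else 0 : ℤ)) : ℝ)) := by
      ext i j
      simp only [Matrix.of_apply]
      rw [entry' E h0 h1 h2 (I i) (J j) (hz' i), Nat.sub_add_cancel (hz' i)]
    rw [h4, cast_det (fun i j : Fin m => if J j + 1 ≤ I i then E (I i) (I i - J j - 1) else 0)]
      at h3
    exact_mod_cast h3

theorem region_E (E : ℕ → ℕ → ℤ) (h0 : ∀ k : ℕ, E 0 k = if k = 0 then 1 else 0)
    (h1 : ∀ n : ℕ, E (n + 1) 0 = E n 0)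
    (h2 : ∀ n k : ℕ, E (n + 1) (k + 1) =
      ((k : ℤ) + 2) * E n (k + 1) + ((1 : ℤ) * (n : ℤ) - (k : ℤ)) * E n k)
    (X m : ℕ) (I J : Fin m → ℕ) (hI : StrictMono I) (hJ : StrictMono J) (hX : ∀ j, J j < X)
    (hn : ∀ i, X * (4 * Nat.log 2 X + 8) ≤ I i) :
    0 < (Matrix.of (fun i j : Fin m =>
      if J j + 1 ≤ I i then E (I i) (I i - J j - 1) else 0)).det := by
  have h3 := region_pos X m I J hI hJ hX hn
  have h4 : (Matrix.of fun i j : Fin m => (F (I i) (J j) : ℝ)) =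
      (Matrix.of fun i j : Fin m =>
        (((if J j + 1 ≤ I i then E (I i) (I i - J j - 1) else 0 : ℤ)) : ℝ)) := by
    ext i j
    simp only [Matrix.of_apply]
    have h5 := hX j
    have h6 := hn i
    have h7 : X * 1 ≤ X * (4 * Nat.log 2 X + 8) := Nat.mul_le_mul le_rfl (by omega)
    rw [entry' E h0 h1 h2 (I i) (J j) (by omega)]
  rw [h4, cast_det (fun i j : Fin m => if J j + 1 ≤ I i then E (I i) (I i - J j - 1) else 0)]
    at h3
  exact_mod_cast h3

end Pool.Agent.BrentiRegion
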