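import Pool.Agent.BrentiRegion.Fekete

/-!
# A verified elimination which certifies the positivity of the initial minors of a list of rows
-/

set_option autoImplicit false

namespace Pool.Agent.BrentiRegion

open Finset

/-- Evaluate the number, then continue. -/
def force {α : Type} (v : ℕ) (k : ℕ → α) : α :=
  match v with
  | 0 => k 0
  | n + 1 => k (n + 1)

theorem force_eq {α : Type} (v : ℕ) (k : ℕ → α) : force v k = k v := by
  cases v <;> rfl

/-- One row of the elimination. -/
def rowK (a0 b0 g : ℕ) : List ℕ → List ℕ → (List ℕ → Bool) → Bool
  | x :: as, y :: bs, k => force ((y * a0 - x * b0) / g) fun q =>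
      (q * g + x * b0).beq (y * a0) && rowK a0 b0 g as bs fun l => k (q :: l)
  | [], [], k => k []
  | _, _, _ => false

theorem rowK_spec (a0 b0 g : ℕ) : ∀ (as bs : List ℕ) (k : List ℕ → Bool),
    rowK a0 b0 g as bs k = true → ∃ r : List ℕ, k r = true ∧
      ∀ j, r.getD j 0 * g + as.getD j 0 * b0 = bs.getD j 0 * a0 := by
  intro as
  induction as with
  | nil =>
    intro bs k h
    cases bs with
    | nil => exact ⟨[], h, fun j => by simp⟩
    | cons y bs => simp [rowK] at h
  | cons x as ih =>
    intro bs k h
    cases bs with
    | nil => simp [rowK] at h
    | cons y bs =>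
      rw [rowK, force_eq, Bool.and_eq_true] at h
      obtain ⟨h1, h2⟩ := h
      have h1' := Nat.eq_of_beq_eq_true h1
      obtain ⟨r, hr, hr'⟩ := ih bs _ h2
      refine ⟨_, hr, fun j => ?_⟩
      cases j with
      | zero => simpa using h1'
      | succ j => simpa using hr' j

/-- One step of the elimination. -/
def levK : List (List ℕ) → List ℕ → (List (List ℕ) → Bool) → Bool
  | (a0 :: as) :: (b0 :: bs) :: rest, g :: gs, k =>
      Nat.blt 0 a0 && rowK a0 b0 g as bs fun r =>
        levK ((b0 :: bs) :: rest) gs fun l => k (r :: l)
  | [a0 :: _], _, k => Nat.blt 0 a0 && k []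
  | _, _, _ => false

/-- The entry `j` of the row `s`. -/
def U (rows : List (List ℕ)) (j s : ℕ) : ℝ := (((rows.getD s []).getD j 0 : ℕ) : ℝ)

theorem U_succ (r : List ℕ) (rows : List (List ℕ)) (j s : ℕ) :
    U (r :: rows) j (s + 1) = U rows j s := by
  unfold U
  simp

theorem levK_spec : ∀ (rows : List (List ℕ)) (gs : List ℕ) (k : List (List ℕ) → Bool),
    levK rows gs k = true → ∃ rows' : List (List ℕ), k rows' = true ∧
      rows'.length + 1 = rows.length ∧ (∀ s < rows.length, 0 < U rows 0 s) ∧
      ∀ s < rows'.length, s < gs.length ∧ ∀ j, U rows' j s * (gs.getD s 0 : ℕ) =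
        U rows (j + 1) (s + 1) * U rows 0 s - U rows (j + 1) s * U rows 0 (s + 1) := by
  intro rows
  induction rows with
  | nil =>
    intro gs k h
    simp [levK] at h
  | cons a rows ih =>
    intro gs k h
    cases a with
    | nil => simp [levK] at h
    | cons a0 as =>
      cases rows with
      | nil =>
        have h' : (Nat.blt 0 a0 && k []) = true := by
          cases gs <;> simpa [levK] using h
        rw [Bool.and_eq_true] at h'
        have h1 : 0 < a0 := by
          have := h'.1
          rwa [Nat.blt_eq] at this
        refine ⟨[], h'.2, rfl, fun s hs => ?_, fun s hs => absurd hs (by simp)⟩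
        have : s = 0 := by
          simp at hs
          omega
        subst this
        unfold U
        simpa using h1
      | cons b rest =>
        cases b with
        | nil => simp [levK] at h
        | cons b0 bs =>
          cases gs with
          | nil => simp [levK] at h
          | cons g gs =>
            rw [levK, Bool.and_eq_true] at h
            obtain ⟨h1, h2⟩ := h
            rw [Nat.blt_eq] at h1
            obtain ⟨r, hr, hr'⟩ := rowK_spec _ _ _ _ _ _ h2
            obtain ⟨rows', h3, h4, h5, h6⟩ := ih gs _ hr
            refine ⟨r :: rows', h3, by simp only [List.length_cons] at h4 ⊢; omega, ?_, ?_⟩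
            · intro s hs
              cases s with
              | zero =>
                unfold U
                simpa using h1
              | succ s =>
                rw [U_succ]
                exact h5 s (by simp only [List.length_cons] at hs ⊢; omega)
            · intro s hs
              cases s with
              | zero =>
                refine ⟨by simp, fun j => ?_⟩
                have h7 := hr' j
                unfold U
                have h8 : ((r.getD j 0 * g + as.getD j 0 * b0 : ℕ) : ℝ) =
                    ((bs.getD j 0 * a0 : ℕ) : ℝ) := by rw [h7]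
                push_cast at h8
                simp only [List.getD_cons_zero, List.getD_cons_succ, zero_add]
                linarith
              | succ s =>
                obtain ⟨h7, h8⟩ := h6 s (by simp only [List.length_cons] at hs; omega)
                refine ⟨by simp only [List.length_cons]; omega, fun j => ?_⟩
                rw [U_succ, U_succ, U_succ, U_succ, U_succ, List.getD_cons_succ]
                exact h8 j

/-- The complete check. -/
def check : ℕ → List (List ℕ) → List ℕ → Bool
  | 0, _, _ => true
  | K + 1, rows, gs => gs.all (fun g => Nat.blt 0 g) &&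
      levK rows gs fun rows' => check K rows' (rows.tail.map fun r => r.headD 0)

theorem check_sound : ∀ (K : ℕ) (rows : List (List ℕ)) (gs : List ℕ),
    check K rows gs = true → ∀ m ≤ K, ∀ n, n + m ≤ rows.length → 0 < cons (U rows) m n := by
  intro K
  induction K with
  | zero =>
    intro rows gs _ m hm n _
    obtain rfl : m = 0 := by omega
    rw [cons_zero]
    exact one_pos
  | succ K ih =>
    intro rows gs h m hm n hn
    rw [check, Bool.and_eq_true] at h
    obtain ⟨h1, h2⟩ := h
    obtain ⟨rows', h3, h4, h5, h6⟩ := levK_spec _ _ _ h2
    cases m with
    | zero =>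
      rw [cons_zero]
      exact one_pos
    | succ m =>
      have h7 := ih rows' _ h3 m (by omega) n (by omega)
      have hg : ∀ s < gs.length, 0 < gs.getD s 0 := by
        intro s hs
        rw [List.all_eq_true] at h1
        have h8 := h1 (gs.getD s 0) (by
          rw [List.getD_eq_getElem _ _ hs]
          exact List.getElem_mem hs)
        rwa [Nat.blt_eq] at h8
      rw [cons_succ (U rows) m n (fun i hi => (h5 _ (by omega)).ne')]
      refine mul_pos (Finset.prod_pos fun i _ => h5 _ (by have := i.2; omega)) ?_
      -- compare with the next level
      have h8 : cons (U rows') m n = (∏ i : Fin m, (U rows 0 (n + i) * U rows 0 (n + i + 1) /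
          (gs.getD (n + i) 0 : ℕ))) * cons (der (U rows)) m n := by
        unfold cons
        rw [← Matrix.det_mul_column]
        congr 1
        ext i j
        have hi := i.2
        obtain ⟨h9, h10⟩ := h6 (n + i) (by omega)
        have h11 : (0 : ℝ) < (gs.getD (n + i) 0 : ℕ) := by exact_mod_cast hg _ h9
        have h12 := h10 j
        have h13 := (h5 (n + i) (by omega)).ne'
        have h14 := (h5 (n + i + 1) (by omega)).ne'
        simp only [Matrix.of_apply]
        unfold der
        rw [← eq_div_iff h11.ne'] at h12
        rw [h12]
        field_simp
      rw [h8] at h7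
      refine (mul_pos_iff_of_pos_left (Finset.prod_pos fun i _ => ?_)).1 h7
      have hi := i.2
      have h9 : (0 : ℝ) < (gs.getD (n + i) 0 : ℕ) := by
        exact_mod_cast hg _ (h6 (n + i) (by omega)).1
      exact div_pos (mul_pos (h5 _ (by omega)) (h5 _ (by omega))) h9

end Pool.Agent.BrentiRegion
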