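import Mathlib

/-!
# Combinatorial and numerical estimates
-/

set_option autoImplicit false

namespace Pool.Agent.BrentiRegion

open Finset

/-- The distance, at least one. -/
noncomputable def mx (s : ℤ) (a : ℕ) : ℝ := max |(s : ℝ) - a| 1

theorem one_le_mx (s : ℤ) (a : ℕ) : 1 ≤ mx s a := le_max_right _ _

theorem abs_le_mx (s : ℤ) (a : ℕ) : |(s : ℝ) - a| ≤ mx s a := le_max_left _ _

theorem mx_pos (s : ℤ) (a : ℕ) : 0 < mx s a := lt_of_lt_of_le one_pos (one_le_mx s a)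

theorem mx_shift (s : ℤ) (a : ℕ) : mx (s - 1) a = mx s (a + 1) := by
  unfold mx
  congr 2
  push_cast
  ring

theorem mx_self (a : ℕ) : mx a a = 1 := by
  unfold mx
  simp

theorem mx_lt (a b : ℕ) (h : a ≠ b) : mx a b = |(a : ℝ) - b| := by
  unfold mx
  rw [Int.cast_natCast]
  refine max_eq_left ?_
  have h1 : ((a : ℝ) - b) = (((a : ℤ) - b : ℤ) : ℝ) := by push_cast; ring
  rw [h1, ← Int.cast_abs]
  have h2 : 1 ≤ |(a : ℤ) - b| := Int.one_le_abs (by omega)
  exact_mod_cast h2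

theorem mx_top (s : ℤ) (M : ℕ) (hs : s ≤ M) : mx s (M + 1) ≤ (M + 2) * mx s 0 := by
  have hs' : (s : ℝ) ≤ M := by exact_mod_cast hs
  have h1 := one_le_mx s 0
  have hM : (0 : ℝ) ≤ M := Nat.cast_nonneg M
  unfold mx
  refine max_le ?_ ?_
  · rw [abs_le]
    push_cast
    by_cases h0 : 0 ≤ s
    · have h0' : (0 : ℝ) ≤ s := by exact_mod_cast h0
      have h2 : (M + 2 : ℝ) * 1 ≤ (M + 2) * max |(s : ℝ) - ((0 : ℕ) : ℝ)| 1 :=
        mul_le_mul_of_nonneg_left (le_max_right _ _) (by linarith)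
      push_cast at h2
      constructor <;> linarith
    · have h0' : (s : ℝ) ≤ -1 := by exact_mod_cast (by omega : s ≤ -1)
      have h3 : -(s : ℝ) ≤ max |(s : ℝ) - ((0 : ℕ) : ℝ)| 1 := by
        refine le_trans ?_ (le_max_left _ _)
        push_cast
        rw [sub_zero]
        exact neg_le_abs _
      have h2 : (M + 2 : ℝ) * (-(s : ℝ)) ≤ (M + 2) * max |(s : ℝ) - ((0 : ℕ) : ℝ)| 1 :=
        mul_le_mul_of_nonneg_left h3 (by linarith)
      push_cast at h2
      constructor <;> nlinarith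
  · have h2 : (M + 2 : ℝ) * 1 ≤ (M + 2) * max |(s : ℝ) - ((0 : ℕ) : ℝ)| 1 :=
      mul_le_mul_of_nonneg_left (le_max_right _ _) (by linarith)
    linarith

theorem prod_mx_fact (κ : ℕ) : ∏ a ∈ range (κ + 1), mx κ a = κ.factorial := by
  induction κ with
  | zero => simp [mx]
  | succ κ ih =>
    rw [Finset.prod_range_succ', Nat.factorial_succ]
    have h1 : ∀ a ∈ range (κ + 1), mx ((κ + 1 : ℕ) : ℤ) (a + 1) = mx κ a := by
      intro a _
      rw [← mx_shift]
      congr 1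
      push_cast
      ring
    rw [Finset.prod_congr rfl h1, ih]
    have h2 : mx ((κ + 1 : ℕ) : ℤ) 0 = κ + 1 := by
      unfold mx
      push_cast
      rw [sub_zero, abs_of_pos (by positivity)]
      exact max_eq_left (by linarith [(Nat.cast_nonneg κ : (0 : ℝ) ≤ κ)])
    rw [h2]
    push_cast
    ring

theorem prod_mx_self (κ r : ℕ) : ∏ a ∈ range (κ + 1 + r), mx κ a = κ.factorial * r.factorial := by
  induction r with
  | zero => rw [add_zero, prod_mx_fact]; simp
  | succ r ih =>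
    rw [← add_assoc, Finset.prod_range_succ, ih, Nat.factorial_succ, mx_lt _ _ (by omega)]
    have h1 : |(κ : ℝ) - ((κ + 1 + r : ℕ) : ℝ)| = r + 1 := by
      push_cast
      rw [abs_sub_comm, abs_of_pos (by linarith [(Nat.cast_nonneg r : (0 : ℝ) ≤ r)])]
      ring
    rw [h1]
    push_cast
    ring

theorem choose_mul_prod (M κ : ℕ) (h : κ ≤ M) :
    (M.choose κ : ℝ) * ∏ a ∈ range (M + 1), mx κ a = M.factorial := by
  have h1 := prod_mx_self κ (M - κ)
  rw [show κ + 1 + (M - κ) = M + 1 by omega] at h1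
  rw [h1, ← Nat.choose_mul_factorial_mul_factorial h]
  push_cast
  ring

theorem prod_mx_step (s : ℤ) (M : ℕ) (hs : s ≤ M) :
    ∏ a ∈ range (M + 1), mx (s - 1) a ≤ (M + 2) * ∏ a ∈ range (M + 1), mx s a := by
  have h1 : ∏ a ∈ range (M + 1), mx (s - 1) a = ∏ a ∈ range (M + 1), mx s (a + 1) :=
    Finset.prod_congr rfl fun a _ => mx_shift s a
  have h2 := Finset.prod_range_succ' (fun a => mx s a) (M + 1)
  rw [Finset.prod_range_succ] at h2
  have h3 : 0 < mx s 0 := mx_pos s 0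
  have h4 : 0 < ∏ a ∈ range (M + 1), mx s a := Finset.prod_pos fun a _ => mx_pos s a
  rw [h1]
  refine le_of_mul_le_mul_right ?_ h3
  rw [← h2]
  calc (∏ a ∈ range (M + 1), mx s a) * mx s (M + 1) ≤
      (∏ a ∈ range (M + 1), mx s a) * ((M + 2) * mx s 0) :=
        mul_le_mul_of_nonneg_left (mx_top s M hs) h4.le
    _ = _ := by ring

/-- The main combinatorial estimate. -/
theorem comb_bound (M κ j : ℕ) (h : κ ≤ M) :
    (M.choose κ : ℝ) * ∏ a ∈ range (M + 1), mx ((κ : ℤ) - j) a ≤ M.factorial * (M + 2) ^ j := by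
  induction j with
  | zero =>
    rw [pow_zero, mul_one, Nat.cast_zero, sub_zero, choose_mul_prod M κ h]
  | succ j ih =>
    have h1 := prod_mx_step ((κ : ℤ) - j) M (by omega)
    rw [show ((κ : ℤ) - j - 1) = (κ : ℤ) - ((j + 1 : ℕ) : ℤ) by push_cast; ring] at h1
    calc (M.choose κ : ℝ) * ∏ a ∈ range (M + 1), mx ((κ : ℤ) - ((j + 1 : ℕ) : ℤ)) a ≤
        (M.choose κ : ℝ) * ((M + 2) * ∏ a ∈ range (M + 1), mx ((κ : ℤ) - j) a) :=
          mul_le_mul_of_nonneg_left h1 (Nat.cast_nonneg _)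
      _ = (M + 2) * ((M.choose κ : ℝ) * ∏ a ∈ range (M + 1), mx ((κ : ℤ) - j) a) := by ring
      _ ≤ (M + 2) * (M.factorial * (M + 2) ^ j) :=
          mul_le_mul_of_nonneg_left ih (by positivity)
      _ = _ := by ring

/-! ### numerical estimates -/

theorem exp_four : (48 : ℝ) ≤ Real.exp 4 := by
  have h1 : (2.7 : ℝ) ≤ Real.exp 1 := by
    have := Real.exp_one_gt_d9
    linarith
  have h2 : Real.exp 4 = Real.exp 1 ^ 4 := by
    rw [← Real.exp_nat_mul]
    norm_num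
  rw [h2]
  calc (48 : ℝ) ≤ 2.7 ^ 4 := by norm_num
    _ ≤ _ := pow_le_pow_left₀ (by norm_num) h1 4

theorem exp_eight : (2800 : ℝ) ≤ Real.exp 8 := by
  have h1 : (2.7 : ℝ) ≤ Real.exp 1 := by
    have := Real.exp_one_gt_d9
    linarith
  have h2 : Real.exp 8 = Real.exp 1 ^ 8 := by
    rw [← Real.exp_nat_mul]
    norm_num
  rw [h2]
  calc (2800 : ℝ) ≤ 2.7 ^ 8 := by norm_num
    _ ≤ _ := pow_le_pow_left₀ (by norm_num) h1 8

theorem four_add_le (l : ℕ) : (4 * l + 9 : ℝ) ≤ 9 * 3 ^ l := by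
  induction l with
  | zero => norm_num
  | succ l ih =>
    push_cast
    rw [pow_succ]
    have h1 : (0 : ℝ) ≤ l := Nat.cast_nonneg l
    nlinarith

/-- The numerical condition. -/
theorem num (X n : ℕ) (hX : 1 ≤ X) (hn : X * (4 * Nat.log 2 X + 8) ≤ n) :
    18 * (X : ℝ) ^ 3 * (n + 1) * Real.exp (-(n : ℝ) / X) ≤ 1 := by
  set l := Nat.log 2 X with hl
  set L := 4 * l + 8 with hL
  have hX0 : (0 : ℝ) < X := by exact_mod_cast hX
  have hX2 : (X : ℝ) < 2 ^ (l + 1) := by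
    have := Nat.lt_pow_succ_log_self (by norm_num : 1 < 2) X
    exact_mod_cast this
  obtain ⟨s, hs⟩ := Nat.exists_eq_add_of_le hn
  have hn' : (n : ℝ) = X * L + s := by
    rw [hs]
    push_cast
    ring
  -- the exponential
  have h1 : Real.exp (-(n : ℝ) / X) = Real.exp (-(L : ℝ)) * Real.exp (-((s : ℝ) / X)) := by
    rw [← Real.exp_add, hn']
    congr 1
    field_simp
    ring
  have h2 : ((n : ℝ) + 1) * Real.exp (-((s : ℝ) / X)) ≤ X * (L + 1) := by
    have h3 : (s : ℝ) / X + 1 ≤ Real.exp ((s : ℝ) / X) := Real.add_one_le_exp _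
    have h4 : (n : ℝ) + 1 ≤ X * (L + 1) * ((s : ℝ) / X + 1) := by
      have h5 : (X : ℝ) * (L + 1) * ((s : ℝ) / X + 1) = (L + 1) * s + X * (L + 1) := by
        field_simp
      rw [h5, hn']
      have h6 : (0 : ℝ) ≤ L * s := by positivity
      have h7 : (1 : ℝ) ≤ X := by exact_mod_cast hX
      nlinarith
    rw [Real.exp_neg, ← div_eq_mul_inv, div_le_iff₀ (Real.exp_pos _)]
    refine h4.trans (mul_le_mul_of_nonneg_left h3 (by positivity))
  have h3 : (X : ℝ) ^ 4 ≤ 16 * 16 ^ l := by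
    calc (X : ℝ) ^ 4 ≤ (2 ^ (l + 1)) ^ 4 := pow_le_pow_left₀ hX0.le hX2.le 4
      _ = 16 * 16 ^ l := by
        rw [← pow_mul, show (l + 1) * 4 = 4 + 4 * l by ring, pow_add, pow_mul]
        norm_num
  have h4 : Real.exp (L : ℝ) = Real.exp 8 * Real.exp 4 ^ l := by
    rw [← Real.exp_nat_mul, ← Real.exp_add, hL]
    congr 1
    push_cast
    ring
  have h5 : (2800 : ℝ) * 48 ^ l ≤ Real.exp L := by
    rw [h4]
    exact mul_le_mul exp_eight (pow_le_pow_left₀ (by norm_num) exp_four l) (by positivity)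
      (Real.exp_pos _).le
  have h6 : ((L : ℝ) + 1) ≤ 9 * 3 ^ l := by
    have := four_add_le l
    rw [hL]
    push_cast
    linarith
  have h7 : (0 : ℝ) < 18 * (X : ℝ) ^ 3 := by positivity
  rw [h1]
  calc 18 * (X : ℝ) ^ 3 * (n + 1) * (Real.exp (-(L : ℝ)) * Real.exp (-((s : ℝ) / X)))
      = 18 * (X : ℝ) ^ 3 * Real.exp (-(L : ℝ)) * (((n : ℝ) + 1) * Real.exp (-((s : ℝ) / X))) := by
        ring
    _ ≤ 18 * (X : ℝ) ^ 3 * Real.exp (-(L : ℝ)) * (X * (L + 1)) :=
        mul_le_mul_of_nonneg_left h2 (mul_nonneg h7.le (Real.exp_pos _).le)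
    _ = 18 * (X ^ 4 * (L + 1)) * Real.exp (-(L : ℝ)) := by ring
    _ ≤ 18 * ((16 * 16 ^ l) * (9 * 3 ^ l)) * Real.exp (-(L : ℝ)) := by
        refine mul_le_mul_of_nonneg_right ?_ (Real.exp_pos _).le
        refine mul_le_mul_of_nonneg_left ?_ (by norm_num)
        exact mul_le_mul h3 h6 (by positivity) (by positivity)
    _ = 2592 * 48 ^ l * Real.exp (-(L : ℝ)) := by
        rw [show (48 : ℝ) = 16 * 3 by norm_num, mul_pow]
        ring
    _ ≤ Real.exp L * Real.exp (-(L : ℝ)) := by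
        refine mul_le_mul_of_nonneg_right ?_ (Real.exp_pos _).le
        refine le_trans ?_ h5
        refine mul_le_mul_of_nonneg_right (by norm_num) (by positivity)
    _ = 1 := by rw [← Real.exp_add]; simp

end Pool.Agent.BrentiRegion
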