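import Pool.Agent.BrentiRegion.Check
import Pool.Agent.BrentiRegion.Euler

/-!
# The rows of the Eulerian triangle, generated for the verified elimination
-/

set_option autoImplicit false

namespace Pool.Agent.BrentiRegion

open Finset

/-- The Eulerian numbers `⟨s+1, k⟩` as natural numbers. -/
def T : ℕ → ℕ → ℕ
  | 0, 0 => 1
  | 0, _ + 1 => 0
  | _ + 1, 0 => 1
  | s + 1, k + 1 => (k + 2) * T s (k + 1) + (s + 1 - k) * T s k

theorem T_eq (s : ℕ) : ∀ k, (T s k : ℤ) = F (s + 1) k := by
  induction s with
  | zero =>
    intro k
    cases k with
    | zero => rw [F_col]; rfl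
    | succ k =>
      rw [F_vanish 0 k (Nat.zero_le _)]
      rfl
  | succ s ih =>
    intro k
    cases k with
    | zero => rw [F_col]; rfl
    | succ k =>
      rw [F_succ, T]
      push_cast
      rw [ih, ih]
      by_cases h : k ≤ s + 1
      · rw [Nat.cast_sub h]
        push_cast
        ring
      · rw [show s + 1 - k = 0 by omega]
        obtain ⟨k, rfl⟩ : ∃ j, k = j + 1 := ⟨k - 1, by omega⟩
        rw [F_vanish s k (by omega)]
        push_cast
        ring

/-- The next row from entry `k + 1` on; `p` is the entry `k` and the list is the rest. -/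
def nxtK (s : ℕ) : ℕ → ℕ → List ℕ → (List ℕ → Bool) → Bool
  | _, _, [], c => c []
  | k, p, x :: xs, c => force ((k + 2) * x + (s + 1 - k) * p) fun v =>
      nxtK s (k + 1) x xs fun l => c (v :: l)

theorem nxtK_spec (s : ℕ) : ∀ (xs : List ℕ) (k p : ℕ) (c : List ℕ → Bool),
    nxtK s k p xs c = true → p = T s k → (∀ j < xs.length, xs.getD j 0 = T s (k + 1 + j)) →
    ∃ l : List ℕ, c l = true ∧ l.length = xs.length ∧
      ∀ j < l.length, l.getD j 0 = T (s + 1) (k + 1 + j) := by
  intro xs
  induction xs with
  | nil =>
    intro k p c h _ _
    exact ⟨[], h, rfl, fun j hj => absurd hj (by simp)⟩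
  | cons x xs ih =>
    intro k p c h hp hx
    rw [nxtK, force_eq] at h
    have hx0 : x = T s (k + 1) := by simpa using hx 0 (by simp)
    obtain ⟨l, h1, h2, h3⟩ := ih (k + 1) x _ h hx0 (fun j hj => by
      have := hx (j + 1) (by simp only [List.length_cons]; omega)
      rw [List.getD_cons_succ] at this
      rw [this]
      congr 1
      omega)
    refine ⟨_, h1, by simp [h2], fun j hj => ?_⟩
    cases j with
    | zero =>
      simp only [List.getD_cons_zero, add_zero]
      rw [T, ← hx0, ← hp]
    | succ j =>
      rw [List.getD_cons_succ, h3 j (by simp only [List.length_cons] at hj; omega)]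
      congr 1
      omega

/-- The rows `s, …, s + d`. -/
def genK : ℕ → ℕ → List ℕ → (List (List ℕ) → Bool) → Bool
  | 0, _, row, c => c [row]
  | _ + 1, _, [], _ => false
  | d + 1, s, x :: xs, c => nxtK s 0 x xs fun l => genK d (s + 1) (1 :: l) fun rows =>
      c ((x :: xs) :: rows)

theorem genK_spec : ∀ (d s : ℕ) (row : List ℕ) (c : List (List ℕ) → Bool),
    genK d s row c = true → (∀ j < row.length, row.getD j 0 = T s j) →
    ∃ rows : List (List ℕ), c rows = true ∧ rows.length = d + 1 ∧
      ∀ i ≤ d, ∀ j < row.length, (rows.getD i []).getD j 0 = T (s + i) j := by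
  intro d
  induction d with
  | zero =>
    intro s row c h hr
    refine ⟨_, h, rfl, fun i hi j hj => ?_⟩
    obtain rfl : i = 0 := by omega
    simpa using hr j hj
  | succ d ih =>
    intro s row c h hr
    cases row with
    | nil => simp [genK] at h
    | cons x xs =>
      rw [genK] at h
      obtain ⟨l, h1, h2, h3⟩ := nxtK_spec s xs 0 x _ h (by simpa using hr 0 (by simp))
        (fun j hj => by
          have := hr (j + 1) (by simp only [List.length_cons]; omega)
          rw [List.getD_cons_succ] at this
          rw [this]
          congr 1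
          omega)
      obtain ⟨rows, h4, h5, h6⟩ := ih (s + 1) (1 :: l) _ h1 (fun j hj => by
        cases j with
        | zero => rfl
        | succ j =>
          rw [List.getD_cons_succ, h3 j (by simp only [List.length_cons] at hj; omega)]
          congr 1
          omega)
      refine ⟨_, h4, by simp [h5], fun i hi j hj => ?_⟩
      cases i with
      | zero => simpa using hr j hj
      | succ i =>
        rw [List.getD_cons_succ, h6 i (by omega) j (by simp only [List.length_cons] at hj ⊢; omega)]
        congr 1
        omega

end Pool.Agent.BrentiRegion
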