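import Pool.Agent.BrentiRegion.Comb
import Pool.Agent.BrentiRegion.Euler

/-!
# Positivity of the solid minors of the Eulerian triangle to the left
-/

set_option autoImplicit false

namespace Pool.Agent.BrentiRegion

open Finset Polynomial

/-! ### a criterion -/

theorem det_pos_of_small {m : ℕ} (E : Matrix (Fin m) (Fin m) ℝ) (h : ∀ q, ∑ a, |E a q| < 1) :
    0 < (1 + E).det := by
  have hne : ∀ t ∈ Set.Icc (0 : ℝ) 1, (1 + t • E).det ≠ 0 := by
    intro t ht
    refine det_ne_zero_of_sum_col_lt_diag fun k => ?_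
    have h1 := h k
    rw [← Finset.add_sum_erase _ _ (Finset.mem_univ k)] at h1
    have h2 : ∑ i ∈ Finset.univ.erase k, ‖(1 + t • E) i k‖ ≤ ∑ i ∈ Finset.univ.erase k, |E i k| := by
      refine Finset.sum_le_sum fun i hi => ?_
      have h3 : i ≠ k := (Finset.mem_erase.1 hi).1
      rw [Matrix.add_apply, Matrix.one_apply_ne h3, zero_add, Matrix.smul_apply, smul_eq_mul,
        Real.norm_eq_abs, abs_mul, abs_of_nonneg ht.1]
      exact mul_le_of_le_one_left (abs_nonneg _) ht.2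
    have h4 : 1 - |E k k| ≤ ‖(1 + t • E) k k‖ := by
      rw [Matrix.add_apply, Matrix.one_apply_eq, Matrix.smul_apply, smul_eq_mul, Real.norm_eq_abs]
      have h5 : |t * E k k| ≤ |E k k| := by
        rw [abs_mul, abs_of_nonneg ht.1]
        exact mul_le_of_le_one_left (abs_nonneg _) ht.2
      have h6 : -|t * E k k| ≤ t * E k k := neg_abs_le _
      have h7 : 1 + t * E k k ≤ |1 + t * E k k| := le_abs_self _
      linarith
    linarith
  by_contra hcon
  rw [not_lt] at hcon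
  have hc : ContinuousOn (fun t : ℝ => (1 + t • E).det) (Set.Icc 0 1) := by
    apply Continuous.continuousOn
    exact Continuous.matrix_det (by fun_prop)
  have h1 := intermediate_value_Icc' (zero_le_one' ℝ) hc
  have h2 : (0 : ℝ) ∈ Set.Icc ((fun t : ℝ => (1 + t • E).det) 1)
      ((fun t : ℝ => (1 + t • E).det) 0) := by
    constructor
    · simpa using hcon
    · simp
  obtain ⟨t, ht, ht0⟩ := h1 h2
  exact hne t ht ht0

/-! ### domination of coefficients -/

/-- The coefficients of `P` are dominated by those of `Q`. -/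
def Dom (P Q : ℝ[X]) : Prop := ∀ k, |P.coeff k| ≤ Q.coeff k

theorem Dom.mul {P Q P' Q' : ℝ[X]} (h : Dom P Q) (h' : Dom P' Q') : Dom (P * P') (Q * Q') := by
  intro k
  rw [coeff_mul, coeff_mul]
  refine (Finset.abs_sum_le_sum_abs _ _).trans (Finset.sum_le_sum fun p _ => ?_)
  rw [abs_mul]
  exact mul_le_mul (h _) (h' _) (abs_nonneg _) ((abs_nonneg _).trans (h _))

theorem Dom.one : Dom 1 1 := by
  intro k
  rw [coeff_one]
  split_ifs <;> simp

theorem Dom.prod {ι : Type} (s : Finset ι) (P Q : ι → ℝ[X]) (h : ∀ i ∈ s, Dom (P i) (Q i)) :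
    Dom (∏ i ∈ s, P i) (∏ i ∈ s, Q i) := by
  classical
  induction s using Finset.induction_on with
  | empty => simpa using Dom.one
  | insert a s ha ih =>
    rw [Finset.prod_insert ha, Finset.prod_insert ha]
    exact (h a (Finset.mem_insert_self _ _)).mul
      (ih fun i hi => h i (Finset.mem_insert_of_mem hi))

theorem Dom.lin (c u y : ℝ) (hy : 0 ≤ y) :
    Dom (C c * (C u + C y * X)) (C |c| * (C |u| + C y * X)) := by
  intro k
  rw [coeff_C_mul, coeff_C_mul, coeff_add, coeff_add, coeff_C_mul, coeff_X, coeff_C, coeff_C,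
    abs_mul]
  refine mul_le_mul_of_nonneg_left ?_ (abs_nonneg _)
  refine (abs_add_le _ _).trans (add_le_add ?_ ?_)
  · split_ifs <;> simp
  · rw [abs_mul, abs_of_nonneg hy]
    split_ifs <;> simp

theorem Dom.binom (N : ℕ) : Dom ((1 + X) ^ N) ((1 + X) ^ N) := by
  intro k
  rw [coeff_one_add_X_pow]
  rw [abs_of_nonneg (Nat.cast_nonneg _)]

theorem Dom.bound {P Q : ℝ[X]} (h : Dom P Q) {ρ : ℝ} (hρ : 0 ≤ ρ) (j : ℕ) :
    |P.coeff j| * ρ ^ j ≤ Q.eval ρ := by
  have h0 : ∀ k, 0 ≤ Q.coeff k := fun k => (abs_nonneg _).trans (h k)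
  refine (mul_le_mul_of_nonneg_right (h j) (pow_nonneg hρ j)).trans ?_
  by_cases hj : j ≤ Q.natDegree
  · rw [eval_eq_sum_range]
    exact Finset.single_le_sum (f := fun k => Q.coeff k * ρ ^ k)
      (fun k _ => mul_nonneg (h0 k) (pow_nonneg hρ k)) (Finset.mem_range.2 (by omega))
  · rw [coeff_eq_zero_of_natDegree_lt (by omega), zero_mul, eval_eq_sum_range]
    exact Finset.sum_nonneg fun k _ => mul_nonneg (h0 k) (pow_nonneg hρ k)

/-! ### the functional -/

/-- The coefficient functional. -/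
noncomputable def cf (n j : ℕ) (y : ℝ) (f : ℝ[X]) : ℝ :=
  ((1 + X) ^ (n + 1) * aeval (C y * (1 + X)) f).coeff j

/-- The functional which maps `X ^ i` to the Eulerian number `⟨n + i, x - 1⟩`. -/
noncomputable def Phi (n x : ℕ) (f : ℝ[X]) : ℝ :=
  ∑ j ∈ range x, (-1) ^ j * ((x : ℝ) - j) ^ n * cf n j ((x : ℝ) - j) f

theorem cf_sum {ι : Type} (s : Finset ι) (n j : ℕ) (y : ℝ) (c : ι → ℝ) (g : ι → ℝ[X]) :
    cf n j y (∑ i ∈ s, C (c i) * g i) = ∑ i ∈ s, c i * cf n j y (g i) := by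
  unfold cf
  rw [map_sum, Finset.mul_sum, finsetSum_coeff]
  refine Finset.sum_congr rfl fun i _ => ?_
  rw [map_mul, aeval_C]
  have h1 : (algebraMap ℝ ℝ[X]) (c i) = C (c i) := rfl
  rw [h1, mul_left_comm, coeff_C_mul]

theorem Phi_sum {ι : Type} (s : Finset ι) (n x : ℕ) (c : ι → ℝ) (g : ι → ℝ[X]) :
    Phi n x (∑ i ∈ s, C (c i) * g i) = ∑ i ∈ s, c i * Phi n x (g i) := by
  unfold Phi
  simp only [cf_sum, Finset.mul_sum]
  rw [Finset.sum_comm]
  refine Finset.sum_congr rfl fun i _ => Finset.sum_congr rfl fun j _ => ?_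
  ring

theorem cf_pow (n j i : ℕ) (y : ℝ) : cf n j y (X ^ i) = y ^ i * ((n + i + 1).choose j : ℝ) := by
  unfold cf
  have h1 : (1 + X) ^ (n + 1) * aeval (C y * (1 + X)) (X ^ i : ℝ[X]) =
      C (y ^ i) * (1 + X) ^ (n + i + 1) := by
    rw [map_pow, aeval_X, mul_pow, C_pow]
    ring
  rw [h1, coeff_C_mul, coeff_one_add_X_pow]

theorem Phi_pow (n k i : ℕ) : Phi n (k + 1) (X ^ i) = (F (n + i) k : ℝ) := by
  unfold Phi F
  push_cast
  refine Finset.sum_congr rfl fun j _ => ?_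
  rw [cf_pow, pow_add]
  ring

theorem cf_zero (n : ℕ) (y : ℝ) (f : ℝ[X]) : cf n 0 y f = f.eval y := by
  unfold cf
  rw [coeff_zero_eq_eval_zero, eval_mul, eval_pow, eval_add, eval_one, eval_X, add_zero, one_pow,
    one_mul]
  have h1 : aeval (C y * (1 + X)) f = f.comp (C y * (1 + X)) := rfl
  rw [h1, eval_comp]
  simp

/-! ### the Lagrange basis -/

/-- The nodes. -/
def nd (c M : ℕ) (a : Fin (M + 1)) : ℝ := (c : ℝ) + 1 + (a : ℕ)

/-- The Lagrange basis. -/
noncomputable def bs (c M : ℕ) (a : Fin (M + 1)) : ℝ[X] := Lagrange.basis Finset.univ (nd c M) a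

theorem nd_inj (c M : ℕ) : Function.Injective (nd c M) := by
  intro a b h
  unfold nd at h
  have h1 : ((a : ℕ) : ℝ) = (b : ℕ) := by linarith
  exact Fin.ext (by exact_mod_cast h1)

theorem aeval_bs (c M : ℕ) (a : Fin (M + 1)) (y : ℝ) :
    aeval (C y * (1 + X)) (bs c M a) = ∏ a' ∈ Finset.univ.erase a,
      (C (nd c M a - nd c M a')⁻¹ * (C (y - nd c M a') + C y * X)) := by
  unfold bs Lagrange.basis Lagrange.basisDivisor
  rw [map_prod]
  refine Finset.prod_congr rfl fun a' _ => ?_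
  rw [map_mul, map_sub, aeval_X, aeval_C, aeval_C]
  have h1 : ∀ u : ℝ, (algebraMap ℝ ℝ[X]) u = C u := fun _ => rfl
  rw [h1, h1, C_sub]
  ring

theorem cf_bound (c M n j : ℕ) (a : Fin (M + 1)) (y ρ : ℝ) (hy : 0 ≤ y) (hρ : 0 ≤ ρ) :
    |cf n j y (bs c M a)| * ρ ^ j ≤ (1 + ρ) ^ (n + 1) * ∏ a' ∈ Finset.univ.erase a,
      (|(nd c M a - nd c M a')⁻¹| * (|y - nd c M a'| + y * ρ)) := by
  unfold cf
  rw [aeval_bs]
  refine (Dom.bound ((Dom.binom (n + 1)).mul (Dom.prod (Finset.univ.erase a) _ _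
    fun a' _ => Dom.lin (nd c M a - nd c M a')⁻¹ (y - nd c M a') y hy)) hρ j).trans (le_of_eq ?_)
  rw [eval_mul, eval_pow, eval_add, eval_one, eval_X, eval_prod]
  congr 1
  refine Finset.prod_congr rfl fun a' _ => ?_
  simp

theorem weight_prod (c M : ℕ) (a : Fin (M + 1)) :
    (M.choose a : ℝ) * ∏ a' ∈ Finset.univ.erase a, |nd c M a - nd c M a'| = M.factorial := by
  rw [← choose_mul_prod M a (by have := a.2; omega), Finset.prod_range,
    ← Finset.mul_prod_erase Finset.univ (fun a' : Fin (M + 1) => mx (a : ℕ) a') (Finset.mem_univ a),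
    mx_self, one_mul]
  congr 1
  refine Finset.prod_congr rfl fun a' ha' => ?_
  rw [mx_lt _ _ fun h => (Finset.mem_erase.1 ha').1 (Fin.ext h.symm)]
  unfold nd
  congr 1
  ring

theorem prod_bound (c M : ℕ) (a : Fin (M + 1)) (t : ℤ) (y r : ℝ) (hr : 0 ≤ r)
    (hy : y = (c : ℝ) + 1 + t) :
    ∏ a' ∈ Finset.univ.erase a, (|y - nd c M a'| + r) ≤
      (1 + r) ^ M * ∏ a' ∈ range (M + 1), mx t a' := by
  have h1 : ∏ a' ∈ Finset.univ.erase a, (|y - nd c M a'| + r) ≤
      ∏ a' ∈ Finset.univ.erase a, ((1 + r) * mx t a') := by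
    refine Finset.prod_le_prod (fun a' _ => add_nonneg (abs_nonneg _) hr) fun a' _ => ?_
    have h2 : |y - nd c M a'| = |(t : ℝ) - (a' : ℕ)| := by
      rw [hy]
      unfold nd
      congr 1
      ring
    rw [h2]
    have h3 := abs_le_mx t a'
    have h4 := one_le_mx t a'
    nlinarith
  refine h1.trans ?_
  rw [Finset.prod_mul_distrib, Finset.prod_const, Finset.card_erase_of_mem (Finset.mem_univ a),
    Finset.card_univ, Fintype.card_fin, Nat.add_sub_cancel, Finset.prod_range]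
  refine mul_le_mul_of_nonneg_left ?_ (pow_nonneg (by linarith) _)
  rw [← Finset.mul_prod_erase Finset.univ (fun a' : Fin (M + 1) => mx t a') (Finset.mem_univ a)]
  exact le_mul_of_one_le_left (Finset.prod_nonneg fun a' _ => (mx_pos t a').le) (one_le_mx t a)

/-- The estimate of one term. -/
theorem term_bound (c M n j : ℕ) (a q : Fin (M + 1)) (ρ : ℝ) (hρ : 0 < ρ)
    (hj : j ≤ c + 1 + q) :
    (M.choose q : ℝ) / M.choose a * |cf n j ((c : ℝ) + 1 + (q : ℕ) - j) (bs c M a)| ≤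
      (1 + ρ) ^ (n + 1) * (1 + ((c : ℝ) + 1 + (q : ℕ) - j) * ρ) ^ M * ((M + 2) / ρ) ^ j := by
  set y : ℝ := (c : ℝ) + 1 + (q : ℕ) - j with hy
  have hy0 : 0 ≤ y := by
    have h1 : (j : ℝ) ≤ ((c + 1 + q : ℕ) : ℝ) := by exact_mod_cast hj
    push_cast at h1
    linarith
  have hWa : (0 : ℝ) < M.choose a := by
    exact_mod_cast Nat.choose_pos (by have := a.2; omega)
  have hWq : (0 : ℝ) < M.choose q := by
    exact_mod_cast Nat.choose_pos (by have := q.2; omega)
  have h1 := cf_bound c M n j a y ρ hy0 hρ.le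
  rw [Finset.prod_mul_distrib] at h1
  have h2 := prod_bound c M a ((q : ℤ) - j) y (y * ρ) (mul_nonneg hy0 hρ.le) (by
    rw [hy]
    push_cast
    ring)
  have h3 := weight_prod c M a
  have h4 := comb_bound M q j (by have := q.2; omega)
  set P := ∏ a' ∈ Finset.univ.erase a, |nd c M a - nd c M a'| with hP
  have hP0 : 0 < P := by
    by_contra hcon
    have h5 : P ≤ 0 := not_lt.1 hcon
    have h6 : (M.choose a : ℝ) * P ≤ 0 := mul_nonpos_of_nonneg_of_nonpos hWa.le h5
    rw [h3] at h6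
    have h7 : (0 : ℝ) < M.factorial := by exact_mod_cast Nat.factorial_pos M
    linarith
  have h5 : ∏ a' ∈ Finset.univ.erase a, |(nd c M a - nd c M a')⁻¹| = P⁻¹ := by
    rw [hP, ← Finset.prod_inv_distrib]
    exact Finset.prod_congr rfl fun a' _ => abs_inv _
  rw [h5] at h1
  set Q := ∏ a' ∈ range (M + 1), mx ((q : ℤ) - j) a' with hQ
  have hQ0 : 0 < Q := Finset.prod_pos fun a' _ => mx_pos _ _
  have h6 : (1 + y * ρ) ^ M * Q * M.choose q ≤ (1 + y * ρ) ^ M * (M.factorial * (M + 2) ^ j) := by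
    rw [mul_assoc]
    refine mul_le_mul_of_nonneg_left ?_ (pow_nonneg (by nlinarith) _)
    rw [mul_comm]
    exact h4
  have hρj : 0 < ρ ^ j := pow_pos hρ j
  have h7 : |cf n j y (bs c M a)| ≤ (1 + ρ) ^ (n + 1) * (P⁻¹ * ((1 + y * ρ) ^ M * Q)) / ρ ^ j := by
    rw [le_div_iff₀ hρj]
    refine h1.trans (mul_le_mul_of_nonneg_left ?_ (by positivity))
    exact mul_le_mul_of_nonneg_left h2 (inv_nonneg.2 hP0.le)
  have h8 : P⁻¹ = M.choose a / M.factorial := by
    rw [← h3]
    field_simp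
  have hM0 : (0 : ℝ) < M.factorial := by exact_mod_cast Nat.factorial_pos M
  calc (M.choose q : ℝ) / M.choose a * |cf n j y (bs c M a)|
      ≤ (M.choose q : ℝ) / M.choose a *
        ((1 + ρ) ^ (n + 1) * (P⁻¹ * ((1 + y * ρ) ^ M * Q)) / ρ ^ j) :=
        mul_le_mul_of_nonneg_left h7 (by positivity)
    _ = (1 + ρ) ^ (n + 1) * ((1 + y * ρ) ^ M * Q * M.choose q) / M.factorial / ρ ^ j := by
        rw [h8]
        field_simp
    _ ≤ (1 + ρ) ^ (n + 1) * ((1 + y * ρ) ^ M * (M.factorial * (M + 2) ^ j)) / M.factorial /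
        ρ ^ j := by
        refine div_le_div_of_nonneg_right (div_le_div_of_nonneg_right
          (mul_le_mul_of_nonneg_left h6 (by positivity)) hM0.le) hρj.le
    _ = _ := by
        rw [div_pow]
        field_simp

/-- The estimate of one term with the chosen `ρ`. -/
theorem term_bound' (c M n j : ℕ) (a q : Fin (M + 1)) (hn : c + M + 1 ≤ n) (hj : j ≤ c + 1 + q) :
    (M.choose q : ℝ) / M.choose a * |cf n j ((c : ℝ) + 1 + (q : ℕ) - j) (bs c M a)| ≤
      Real.exp 2 * (((M : ℝ) + 2) * ((M + 1) * (n + 1))) ^ j := by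
  set ρ : ℝ := (((M : ℝ) + 1) * (n + 1))⁻¹ with hρ
  have hρ0 : 0 < ρ := by positivity
  refine (term_bound c M n j a q ρ hρ0 hj).trans ?_
  have h1 : (1 + ρ) ^ (n + 1) ≤ Real.exp 1 := by
    have h2 : (1 + ρ) ^ (n + 1) ≤ Real.exp ρ ^ (n + 1) :=
      pow_le_pow_left₀ (by linarith) (by linarith [Real.add_one_le_exp ρ]) _
    refine h2.trans ?_
    rw [← Real.exp_nat_mul]
    refine Real.exp_le_exp.2 ?_
    rw [hρ]
    push_cast
    rw [mul_inv, ← mul_assoc, mul_comm ((n : ℝ) + 1), mul_assoc,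
      mul_inv_cancel₀ (by positivity), mul_one]
    exact inv_le_one_of_one_le₀ (by linarith [(Nat.cast_nonneg M : (0 : ℝ) ≤ M)])
  set y : ℝ := (c : ℝ) + 1 + (q : ℕ) - j with hy
  have hy0 : 0 ≤ y := by
    have h1 : (j : ℝ) ≤ ((c + 1 + q : ℕ) : ℝ) := by exact_mod_cast hj
    push_cast at h1
    linarith
  have hyn : y ≤ n + 1 := by
    have h2 : (q : ℕ) ≤ M := by have := q.2; omega
    have h3 : ((c + 1 + q : ℕ) : ℝ) ≤ n := by exact_mod_cast (by omega : c + 1 + q ≤ n)
    push_cast at h3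
    have h4 : (0 : ℝ) ≤ j := Nat.cast_nonneg j
    linarith
  have h2 : (1 + y * ρ) ^ M ≤ Real.exp 1 := by
    have h3 : (1 + y * ρ) ^ M ≤ Real.exp (y * ρ) ^ M :=
      pow_le_pow_left₀ (by nlinarith) (by linarith [Real.add_one_le_exp (y * ρ)]) _
    refine h3.trans ?_
    rw [← Real.exp_nat_mul]
    refine Real.exp_le_exp.2 ?_
    rw [hρ]
    rw [← div_eq_mul_inv, ← mul_div_assoc, div_le_one (by positivity)]
    have h5 : (0 : ℝ) ≤ M := Nat.cast_nonneg M
    have h6 : (0 : ℝ) ≤ n := Nat.cast_nonneg n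
    nlinarith
  have h3 : ((M : ℝ) + 2) / ρ = (M + 2) * ((M + 1) * (n + 1)) := by
    rw [hρ, div_inv_eq_mul]
  rw [h3]
  refine mul_le_mul_of_nonneg_right ?_ (by positivity)
  have h4 : Real.exp 2 = Real.exp 1 * Real.exp 1 := by
    rw [← Real.exp_add]
    norm_num
  rw [h4]
  exact mul_le_mul h1 h2 (pow_nonneg (by nlinarith) _) (Real.exp_pos _).le

/-- The normalised matrix. -/
noncomputable def G (c M n : ℕ) (a q : Fin (M + 1)) : ℝ :=
  (M.choose q : ℝ) / M.choose a / ((c : ℝ) + 1 + (q : ℕ)) ^ n * Phi n (c + q + 1) (bs c M a)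

theorem G_bound (c M n : ℕ) (a q : Fin (M + 1)) (hn : c + M + 1 ≤ n) (z : ℝ)
    (hz : z = Real.exp (-(n : ℝ) / ((c + M + 1 : ℕ) : ℝ)) *
      (((M : ℝ) + 2) * ((M + 1) * (n + 1)))) (hz1 : z ≤ 1 / 9) :
    |G c M n a q - if a = q then 1 else 0| ≤ Real.exp 2 * (9 / 8 * z) := by
  have hz0 : 0 ≤ z := by
    rw [hz]
    positivity
  set x : ℝ := (c : ℝ) + 1 + (q : ℕ) with hx
  have hx0 : 0 < x := by
    rw [hx]
    positivity
  have hWa : (0 : ℝ) < M.choose a := by
    exact_mod_cast Nat.choose_pos (by have := a.2; omega)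
  have hWq : (0 : ℝ) < M.choose q := by
    exact_mod_cast Nat.choose_pos (by have := q.2; omega)
  have h1 : Phi n (c + q + 1) (bs c M a) = x ^ n * (if a = q then 1 else 0) +
      ∑ j ∈ range (c + q), (-1) ^ (j + 1) * (x - ((j + 1 : ℕ) : ℝ)) ^ n *
        cf n (j + 1) (x - ((j + 1 : ℕ) : ℝ)) (bs c M a) := by
    unfold Phi
    rw [Finset.sum_range_succ', add_comm]
    have h2 : ((c + q + 1 : ℕ) : ℝ) = x := by
      rw [hx]
      push_cast
      ring
    rw [h2]
    congr 1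
    rw [Nat.cast_zero, sub_zero, pow_zero, one_mul, cf_zero]
    congr 1
    have h3 : x = nd c M q := rfl
    rw [h3]
    unfold bs
    split_ifs with h
    · rw [h]
      exact Lagrange.eval_basis_self (nd_inj c M).injOn (Finset.mem_univ q)
    · exact Lagrange.eval_basis_of_ne h (Finset.mem_univ q)
  have h2 : G c M n a q - (if a = q then 1 else 0) =
      ∑ j ∈ range (c + q), (M.choose q : ℝ) / M.choose a / x ^ n *
        ((-1) ^ (j + 1) * (x - ((j + 1 : ℕ) : ℝ)) ^ n *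
        cf n (j + 1) (x - ((j + 1 : ℕ) : ℝ)) (bs c M a)) := by
    unfold G
    rw [h1, mul_add, Finset.mul_sum]
    have h3 : (M.choose q : ℝ) / M.choose a / x ^ n * (x ^ n * (if a = q then 1 else 0)) =
        if a = q then 1 else 0 := by
      split_ifs with h
      · rw [h]
        field_simp
      · ring
    rw [h3]
    ring
  rw [h2]
  refine (Finset.abs_sum_le_sum_abs _ _).trans ?_
  have h3 : ∀ j ∈ range (c + q), |(M.choose q : ℝ) / M.choose a / x ^ n *
        ((-1) ^ (j + 1) * (x - ((j + 1 : ℕ) : ℝ)) ^ n *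
        cf n (j + 1) (x - ((j + 1 : ℕ) : ℝ)) (bs c M a))| ≤ Real.exp 2 * z * z ^ j := by
    intro j hj
    have hj' := Finset.mem_range.1 hj
    have h4 := term_bound' c M n (j + 1) a q hn (by omega)
    rw [← hx] at h4
    set y : ℝ := x - ((j + 1 : ℕ) : ℝ) with hy
    have hy0 : 0 ≤ y := by
      have h5 : ((j + 1 : ℕ) : ℝ) ≤ ((c + q : ℕ) : ℝ) := by exact_mod_cast (by omega : j + 1 ≤ c + q)
      rw [hy, hx]
      push_cast at h5 ⊢
      linarith
    have h5 : |(M.choose q : ℝ) / M.choose a / x ^ n * ((-1) ^ (j + 1) * y ^ n *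
        cf n (j + 1) y (bs c M a))| = (y / x) ^ n *
          ((M.choose q : ℝ) / M.choose a * |cf n (j + 1) y (bs c M a)|) := by
      rw [abs_mul, abs_mul, abs_mul, abs_pow, abs_neg, abs_one, one_pow, one_mul,
        abs_of_nonneg (pow_nonneg hy0 n), abs_of_nonneg (by positivity), div_pow]
      ring
    rw [h5]
    have h6 : (y / x) ^ n ≤ Real.exp (-(n : ℝ) / ((c + M + 1 : ℕ) : ℝ)) ^ (j + 1) := by
      have h7 : y / x ≤ Real.exp (-(((j + 1 : ℕ) : ℝ) / x)) := by
        have h8 : y / x = -(((j + 1 : ℕ) : ℝ) / x) + 1 := by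
          rw [hy]
          field_simp
          ring
        rw [h8]
        exact Real.add_one_le_exp _
      refine (pow_le_pow_left₀ (div_nonneg hy0 hx0.le) h7 n).trans ?_
      rw [← Real.exp_nat_mul, ← Real.exp_nat_mul]
      refine Real.exp_le_exp.2 ?_
      have h9 : x ≤ ((c + M + 1 : ℕ) : ℝ) := by
        have h10 : ((q : ℕ) : ℝ) ≤ M := by exact_mod_cast (by have := q.2; omega : (q : ℕ) ≤ M)
        rw [hx]
        push_cast
        linarith
      have h11 : (n : ℝ) * ((j + 1 : ℕ) : ℝ) / ((c + M + 1 : ℕ) : ℝ) ≤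
          (n : ℝ) * ((j + 1 : ℕ) : ℝ) / x :=
        div_le_div_of_nonneg_left (by positivity) hx0 h9
      have h12 : (n : ℝ) * -(((j + 1 : ℕ) : ℝ) / x) = -((n : ℝ) * ((j + 1 : ℕ) : ℝ) / x) := by ring
      have h13 : ((j + 1 : ℕ) : ℝ) * (-(n : ℝ) / ((c + M + 1 : ℕ) : ℝ)) =
          -((n : ℝ) * ((j + 1 : ℕ) : ℝ) / ((c + M + 1 : ℕ) : ℝ)) := by ring
      rw [h12, h13]
      exact neg_le_neg h11
    calc (y / x) ^ n * ((M.choose q : ℝ) / M.choose a * |cf n (j + 1) y (bs c M a)|)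
        ≤ Real.exp (-(n : ℝ) / ((c + M + 1 : ℕ) : ℝ)) ^ (j + 1) *
          (Real.exp 2 * (((M : ℝ) + 2) * ((M + 1) * (n + 1))) ^ (j + 1)) :=
          mul_le_mul h6 h4 (by positivity) (by positivity)
      _ = Real.exp 2 * z ^ (j + 1) := by
          rw [mul_left_comm, ← mul_pow, ← hz]
      _ = _ := by
          rw [pow_succ]
          ring
  refine (Finset.sum_le_sum h3).trans ?_
  rw [← Finset.mul_sum]
  have h4 := mul_neg_geom_sum z (c + q)
  have h5 : ∑ j ∈ range (c + q), z ^ j ≤ 9 / 8 := by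
    have h6 : (0 : ℝ) ≤ ∑ j ∈ range (c + q), z ^ j := Finset.sum_nonneg fun j _ => pow_nonneg hz0 j
    have h7 : (0 : ℝ) ≤ z ^ (c + q : ℕ) := pow_nonneg hz0 _
    nlinarith
  calc Real.exp 2 * z * ∑ j ∈ range (c + q), z ^ j ≤ Real.exp 2 * z * (9 / 8) :=
        mul_le_mul_of_nonneg_left h5 (by positivity)
    _ = _ := by ring

theorem exp_two_lt : Real.exp 2 < 7.4 := by
  have h1 := Real.exp_one_lt_d9
  have h2 : Real.exp 2 = Real.exp 1 ^ 2 := by
    rw [← Real.exp_nat_mul]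
    norm_num
  rw [h2]
  calc Real.exp 1 ^ 2 ≤ 2.7182818286 ^ 2 :=
        pow_le_pow_left₀ (Real.exp_pos _).le h1.le 2
    _ < 7.4 := by norm_num

theorem det_G_pos (c M n : ℕ)
    (hn : (c + M + 1) * (4 * Nat.log 2 (c + M + 1) + 8) ≤ n) :
    0 < (Matrix.of fun a q : Fin (M + 1) => G c M n a q).det := by
  set Xn := c + M + 1 with hXn
  have hX1 : 1 ≤ Xn := by omega
  have hnX : c + M + 1 ≤ n := by
    refine le_trans ?_ hn
    rw [← hXn]
    exact Nat.le_mul_of_pos_right _ (by omega)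
  have h0 := num Xn n hX1 hn
  set e := Real.exp (-(n : ℝ) / (Xn : ℝ)) with he
  have he0 : 0 < e := Real.exp_pos _
  set z : ℝ := e * (((M : ℝ) + 2) * ((M + 1) * (n + 1))) with hz
  have hX1' : (1 : ℝ) ≤ Xn := by exact_mod_cast hX1
  have hMX : (M : ℝ) + 1 ≤ Xn := by
    rw [hXn]
    push_cast
    linarith [(Nat.cast_nonneg c : (0 : ℝ) ≤ c)]
  have hM0 : (0 : ℝ) ≤ M := Nat.cast_nonneg M
  have hn0 : (0 : ℝ) ≤ n := Nat.cast_nonneg n
  have hzX : 9 * (Xn : ℝ) * z ≤ 1 := by
    refine le_trans ?_ h0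
    have h1 : ((M : ℝ) + 2) * (M + 1) ≤ 2 * (Xn : ℝ) ^ 2 := by nlinarith
    calc 9 * (Xn : ℝ) * z = 9 * Xn * (n + 1) * e * (((M : ℝ) + 2) * (M + 1)) := by
          rw [hz]
          ring
      _ ≤ 9 * Xn * (n + 1) * e * (2 * (Xn : ℝ) ^ 2) :=
          mul_le_mul_of_nonneg_left h1 (by positivity)
      _ = _ := by ring
  have hz0 : 0 ≤ z := by
    rw [hz]
    positivity
  have hz9 : z ≤ 1 / 9 := by nlinarith
  have hG : (Matrix.of fun a q : Fin (M + 1) => G c M n a q) =
      1 + Matrix.of fun a q : Fin (M + 1) => G c M n a q - (if a = q then 1 else 0) := by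
    ext a q
    rw [Matrix.add_apply, Matrix.of_apply, Matrix.of_apply, Matrix.one_apply]
    ring
  rw [hG]
  refine det_pos_of_small _ fun q => ?_
  have h1 : ∑ a : Fin (M + 1), |(Matrix.of fun a q : Fin (M + 1) =>
      G c M n a q - (if a = q then 1 else 0)) a q| ≤
      ∑ _a : Fin (M + 1), Real.exp 2 * (9 / 8 * z) :=
    Finset.sum_le_sum fun a _ => G_bound c M n a q hnX z hz hz9
  refine h1.trans_lt ?_
  rw [Finset.sum_const, Finset.card_univ, Fintype.card_fin, nsmul_eq_mul]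
  push_cast
  have h2 : ((M : ℝ) + 1) * z ≤ 1 / 9 := by nlinarith
  have h3 := exp_two_lt
  have h4 : 0 < Real.exp 2 := Real.exp_pos _
  calc ((M : ℝ) + 1) * (Real.exp 2 * (9 / 8 * z)) = Real.exp 2 * (9 / 8) * (((M : ℝ) + 1) * z) := by
        ring
    _ ≤ Real.exp 2 * (9 / 8) * (1 / 9) := mul_le_mul_of_nonneg_left h2 (by positivity)
    _ < 1 := by linarith

/-- The solid minors of the Eulerian triangle to the left are positive. -/
theorem solid_pos (c m n : ℕ) (hn : (c + m) * (4 * Nat.log 2 (c + m) + 8) ≤ n) :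
    0 < (Matrix.of fun i q : Fin m => (F (n + i) (c + q) : ℝ)).det := by
  rcases m with _ | M
  · rw [Matrix.det_isEmpty]
    exact one_pos
  · have h0 := det_G_pos c M n hn
    have h1 : (Matrix.of fun i q : Fin (M + 1) => (F (n + i) (c + q) : ℝ)) =
        (Matrix.vandermonde (nd c M)).transpose * (Matrix.diagonal (fun a : Fin (M + 1) => (M.choose a : ℝ)) *
          (Matrix.of fun a q : Fin (M + 1) => G c M n a q) *
          Matrix.diagonal (fun q : Fin (M + 1) => nd c M q ^ n / (M.choose q : ℝ))) := by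
      ext i q
      rw [Matrix.mul_apply, Matrix.of_apply, ← Phi_pow]
      have h2 : (X ^ (i : ℕ) : ℝ[X]) = ∑ a : Fin (M + 1), C (nd c M a ^ (i : ℕ)) * bs c M a := by
        have h3 := Lagrange.eq_interpolate (s := Finset.univ) (v := nd c M)
          (f := (X ^ (i : ℕ) : ℝ[X])) (nd_inj c M).injOn (by
            rw [Finset.card_univ, Fintype.card_fin, degree_X_pow]
            exact_mod_cast i.2)
        rw [Lagrange.interpolate_apply] at h3
        rw [h3]
        refine Finset.sum_congr rfl fun a _ => ?_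
        rw [eval_pow, eval_X]
        rfl
      rw [h2, Phi_sum]
      refine Finset.sum_congr rfl fun a _ => ?_
      rw [Matrix.transpose_apply, Matrix.vandermonde_apply, Matrix.mul_diagonal,
        Matrix.diagonal_mul, Matrix.of_apply]
      congr 1
      unfold G
      have hWa : (0 : ℝ) < M.choose a := by
        exact_mod_cast Nat.choose_pos (by have := a.2; omega)
      have hWq : (0 : ℝ) < M.choose q := by
        exact_mod_cast Nat.choose_pos (by have := q.2; omega)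
      have hx : nd c M q = (c : ℝ) + 1 + (q : ℕ) := rfl
      have hx0 : (0 : ℝ) < (c : ℝ) + 1 + (q : ℕ) := by positivity
      rw [hx]
      field_simp
    rw [h1, Matrix.det_mul, Matrix.det_mul, Matrix.det_mul, Matrix.det_transpose,
      Matrix.det_vandermonde, Matrix.det_diagonal, Matrix.det_diagonal]
    refine mul_pos (Finset.prod_pos fun i _ => Finset.prod_pos fun j hj => ?_)
      (mul_pos (mul_pos (Finset.prod_pos fun a _ => ?_) h0) (Finset.prod_pos fun q _ => ?_))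
    · have h4' : i < j := Finset.mem_Ioi.1 hj
      have h4 : (i : ℕ) < (j : ℕ) := h4'
      have h5 : ((i : ℕ) : ℝ) < (j : ℕ) := by exact_mod_cast h4
      unfold nd
      linarith
    · exact_mod_cast Nat.choose_pos (by have := a.2; omega)
    · have hWq : (0 : ℝ) < M.choose q := by
        exact_mod_cast Nat.choose_pos (by have := q.2; omega)
      unfold nd
      positivity

end Pool.Agent.BrentiRegion
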