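import Pool.Agent.BrentiRegion.Gen
import Pool.Agent.BrentiRegion.Region

/-!
# The initial minors of order at most 20 below the threshold, by a verified elimination
-/

set_option autoImplicit false

namespace Pool.Agent.BrentiRegion

open Finset

theorem check_F (K d : ℕ) (gs : List ℕ)
    (h : genK d 0 (1 :: List.replicate K 0) (fun rows => check (K + 1) rows gs) = true)
    (m : ℕ) (hm : m ≤ K + 1) (s : ℕ) (hs : s + m ≤ d + 1) :
    0 < (Matrix.of fun i q : Fin m => (F (s + i + 1) q : ℝ)).det := by
  obtain ⟨rows, h1, h2, h3⟩ := genK_spec d 0 (1 :: List.replicate K 0) _ h (fun j hj => by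
    cases j with
    | zero => rfl
    | succ j =>
      rw [List.getD_cons_succ, T]
      simp)
  have h4 := check_sound (K + 1) rows _ h1 m hm s (by rw [h2]; exact hs)
  have h5 : cons (U rows) m s = (Matrix.of fun i q : Fin m => (F (s + i + 1) q : ℝ)).det := by
    unfold cons
    congr 1
    ext i q
    have hi := i.2
    have hq := q.2
    have h6 := h3 (s + i) (by omega) q (by simp; omega)
    simp only [Matrix.of_apply]
    unfold U
    rw [h6, zero_add, ← T_eq]
    push_cast
    rfl
  rw [← h5]
  exact h4

set_option maxRecDepth 100000 in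
theorem table : genK 499 0 (1 :: List.replicate 19 0)
    (fun rows => check (19 + 1) rows (List.replicate 500 1)) = true := by
  decide +kernel

theorem initial_pos (m : ℕ) (hm : m ≤ 20) (s : ℕ) (hs : s + m ≤ 500) :
    0 < (Matrix.of fun i q : Fin m => (F (s + i + 1) q : ℝ)).det :=
  check_F 19 499 _ table m hm s hs

theorem thr_le_20 (m : ℕ) (hm : m ≤ 20) : thr m ≤ m * 24 := by
  unfold thr
  have h1 : Nat.log 2 m ≤ Nat.log 2 20 := Nat.log_mono_right hm
  have h2 : Nat.log 2 20 = 4 := by decide +kernel
  exact Nat.mul_le_mul le_rfl (by omega)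

theorem strip_20 (m : ℕ) (r c : Fin m → ℕ) (hr : StrictMono r) (hc : StrictMono c)
    (hcK : ∀ j, c j < 20) : 0 ≤ (Matrix.of fun i j : Fin m => (F (r i + 1) (c j) : ℝ)).det := by
  refine strip_nonneg 20 (fun m' hm' s hs => initial_pos m' hm' s ?_) m r c hr hc hcK
  have := thr_le_20 m' hm'
  omega

end Pool.Agent.BrentiRegion
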